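import Pool.Agent.Lib.FBC.X1.Pow
import Pool.Agent.Lib.FBC.ACC
import Pool.Agent.Lib.FBC.POT
import Pool.Agent.Lib.FBC.EXT
import Pool.Agent.Lib.FBC.START

set_option linter.unusedVariables false

/-!
Common fixed vertices, induced forests, and maximal families of elliptic elements.
-/

namespace Pool.Agent.Lib.FBC

open Forest MulAction

variable {G H K : Type} [Group G] [Group H] [Group K] {d : Dg G} {e : Dg H} {k : ℕ}
  {j : H →* G}

lemma finite_of_fg_free {α : Type} (h : Group.FG (FreeGroup α)) : Finite α := by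
  classical
  let χ : α → FreeGroup α →* Multiplicative ℤ := fun a =>
    FreeGroup.lift fun b => if b = a then Multiplicative.ofAdd 1 else 1
  have h1 : ∀ w, {a | χ a w ≠ 1}.Finite := fun w => by
    induction w using FreeGroup.induction_on with
    | C1 => simp
    | of b => exact (Set.finite_singleton b).subset fun a ha => by_contra fun q => ha (by
        simp only [χ, FreeGroup.lift_apply_of]; exact if_neg fun t => q t.symm)
    | inv_of b ih => simpa using ih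
    | mul x y ix iy => exact (ix.union iy).subset fun a ha => by_contra fun q => ha (by
        simp only [Set.mem_union, Set.mem_ofPred_eq, not_or, not_not] at q
        rw [map_mul, q.1, q.2, one_mul])
  obtain ⟨S, h2, h3⟩ := Group.fg_iff.1 h
  refine Set.finite_univ_iff.1 ((h3.biUnion fun w _ => h1 w).subset fun a _ => by_contra fun q => ?_)
  have : χ a = 1 := MonoidHom.eq_of_eqOn_dense h2 fun w hw => by_contra fun t =>
    q (Set.mem_biUnion hw t)
  simpa [χ] using DFunLike.congr_fun this (FreeGroup.of a)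

/-- a basis of the kernel -/
lemma FC.basis (hF : FC d) : ∃ (n : ℕ) (ι : FreeGroup (Fin n) →* G),
    Function.Injective ι ∧ ι.range = d.ker := by
  have := hF.free
  have := (Group.fg_iff_subgroup_fg _).2 hF.fg
  let φ := IsFreeGroup.toFreeGroup d.ker
  have : Group.FG (FreeGroup (IsFreeGroup.Generators d.ker)) :=
    Group.fg_of_surjective (f := φ.toMonoidHom) φ.surjective
  have : Finite (IsFreeGroup.Generators d.ker) := finite_of_fg_free this
  obtain ⟨n, ⟨ψ⟩⟩ := Finite.exists_equiv_fin (IsFreeGroup.Generators d.ker)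
  let χ : FreeGroup (Fin n) ≃* d.ker := (φ.trans (FreeGroup.freeGroupCongr ψ)).symm
  refine ⟨n, d.ker.subtype.comp χ.toMonoidHom, Subtype.val_injective.comp χ.injective, ?_⟩
  rw [← MonoidHom.map_range, MonoidHom.range_eq_top.2 χ.surjective, ← MonoidHom.range_eq_map,
    Subgroup.range_subtype]

lemma FC.rank (hF : FC d) : ∃ n, Rank d n :=
  let ⟨n, ι, h1, h2⟩ := hF.basis; ⟨n, Start.rank ι h1 h2⟩

lemma FC.start (hF : FC d) (h0 : d.ker ≠ ⊥) :
    ∃ T : Forest d, T.Ess ∧ ∀ k : ℤ, Nonempty (Hom T T k) := by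
  obtain ⟨n, ι, h1, h2⟩ := hF.basis
  have hn : n ≠ 0 := by
    rintro rfl
    refine h0 ?_
    rw [← h2, eq_bot_iff]
    rintro _ ⟨x, rfl⟩
    rw [Subsingleton.elim x 1, map_one]
    exact Subgroup.one_mem _
  obtain ⟨-, T, h3, -, h4⟩ := START_holds G d n ι h1 h2 hn hF.surj
  exact ⟨T, h3, h4⟩

lemma FC.acc (hF : FC d) : ∃ (N : ℕ) (xi : Forest d → ℕ), (∀ T : Forest d, T.Ess → xi T ≤ N) ∧
    ∀ (T T' : Forest d) (k : ℤ) (h : Hom T T' k), T.Ess → T'.Ess →
      xi T ≤ xi T' ∧ (xi T' ≤ xi T → Nonempty (Hom T' T (-k))) :=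
  let ⟨n, hn⟩ := hF.rank
  let ⟨xi, h⟩ := ACC_holds POT_holds (EXT_holds POT_holds) G d n hn hF.surj
  ⟨n ^ 2, xi, h⟩

/-- A self map of an essential forest has a map back. -/
lemma FC.rev (hF : FC d) {T : Forest d} (hT : T.Ess) {r : ℤ} (f : Hom T T r) :
    Nonempty (Hom T T (-r)) :=
  let ⟨_, _, _, h⟩ := hF.acc; (h T T r f hT hT).2 le_rfl

lemma FC.hom_mul (hF : FC d) {T : Forest d} (hT : T.Ess) {r m : ℤ} (f : Hom T T r)
    (hm : r ∣ m) : Nonempty (Hom T T m) := by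
  obtain ⟨n, rfl⟩ := hm
  obtain ⟨g⟩ := hF.rev hT f
  rcases Int.eq_nat_or_neg n with ⟨n, rfl | rfl⟩
  · exact ⟨f.itr n (mul_comm _ _)⟩
  · exact ⟨g.itr n (by ring)⟩

namespace Forest

variable {Y Z : Forest d}

/-- The fixed vertex of a nontrivial element lies between a vertex and its image. -/
lemma btw_of_fix {g : G} {a z : Y.V} (hg : g ≠ 1) (ha : g • a = a) (l : Y.lev z = Y.lev a) :
    Y.btw z a (g • z) := by
  by_cases q : a = z
  · subst q; rw [ha]; exact btw_refl a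
  obtain ⟨c, h1, h2⟩ := exists_step l.symm q
  have := btw_of_turn (e := c) (e' := c.tr g) (a := z) (b := g • z) (by rw [src_tr, h1, ha])
    (fun t => hg (eq_one_of_tr (congrArg Prod.fst t).symm)) h2.2 ((smul_mem_H g).2 h2.2)
  rwa [h1] at this

/-- Two nontrivial elements with elliptic product have the same fixed vertex. -/
lemma fix_eq_of_mul {x y : G} {a b z : Y.V} (hx : x ≠ 1) (hy : y ≠ 1) (ha : x • a = a)
    (hb : y • b = b) (hz : (x * y) • z = z) (l : Y.lev z = Y.lev a) (l' : Y.lev z = Y.lev b) :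
    a = b := by
  have ha' : x⁻¹ • a = a := by rw [inv_smul_eq_iff, ha]
  have e1 : x⁻¹ • z = y • z := by rw [inv_smul_eq_iff, ← mul_smul, hz]
  have h1 := btw_of_fix (inv_ne_one.2 hx) ha' l
  have h2 := btw_of_fix hy hb l'
  have d1 := h1.dist_add
  have d2 := h2.dist_add
  have d3 := dist_smul x⁻¹ a z
  have d4 := dist_smul y b z
  rw [ha'] at d3
  rw [hb] at d4
  rw [e1] at h1 d1 d3
  refine h1.eq_of_dist h2 ?_
  rw [dist_comm a z] at d3
  rw [dist_comm b z] at d4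
  omega

/-- elements that fix a vertex of level `l` -/
def EllAt (Y : Forest d) (l : ℤ) : Set G := {g | ∃ v : Y.V, Y.lev v = l ∧ g • v = v}

lemma ellAt_subset (l : ℤ) : Y.EllAt l ⊆ Y.Ell := fun _ ⟨v, _, h⟩ => ⟨v, h⟩

lemma Hom.ellAt {r : ℤ} (f : Hom Y Z r) (l : ℤ) : Y.EllAt l ⊆ Z.EllAt (l + r) :=
  fun g ⟨v, h1, h2⟩ => ⟨f v, by rw [f.lev_map, h1], by rw [← f.map_smul, h2]⟩

lemma ellAt_eq (hY : ∀ n, Nonempty (Hom Y Y n)) (l : ℤ) : Y.EllAt l = Y.Ell := by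
  refine (ellAt_subset l).antisymm fun g ⟨v, h⟩ => ?_
  obtain ⟨f⟩ := hY (l - Y.lev v)
  simpa using f.ellAt _ ⟨v, rfl, h⟩

lemma conj_mem_ellAt {g : G} {l : ℤ} (t : G) (h : g ∈ Y.EllAt l) :
    t * g * t⁻¹ ∈ Y.EllAt (dg d t + l) :=
  let ⟨v, h1, h2⟩ := h
  ⟨t • v, by rw [lev_smul_dg, h1], by rw [mul_smul, inv_smul_smul, mul_smul, h2]⟩

lemma EllAt.ker {g : G} {l : ℤ} (h : g ∈ Y.EllAt l) : g ∈ d.ker :=
  let ⟨_, _, h⟩ := h; dg_of_fix h

/-- A group of elements that are elliptic on one level has a common fixed vertex. -/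
lemma serre (S : Subgroup G) {l : ℤ} (h : ∀ g ∈ S, g ∈ Y.EllAt l) :
    ∃ v, Y.lev v = l ∧ ∀ g ∈ S, g • v = v := by
  by_cases h0 : ∃ x ∈ S, x ≠ 1
  · obtain ⟨x, hx, hx1⟩ := h0
    obtain ⟨a, la, ha⟩ := h x hx
    refine ⟨a, la, fun y hy => ?_⟩
    by_cases hy1 : y = 1
    · rw [hy1, one_smul]
    obtain ⟨b, lb, hb⟩ := h y hy
    obtain ⟨z, lz, hz⟩ := h _ (S.mul_mem hx hy)
    rw [fix_eq_of_mul hx1 hy1 ha hb hz (lz.trans la.symm) (lz.trans lb.symm), hb]
  · obtain ⟨a, la, -⟩ := h 1 S.one_mem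
    refine ⟨a, la, fun y hy => ?_⟩
    rw [by_contra fun q => h0 ⟨y, hy, q⟩, one_smul]

lemma Ess.exists_not_ellAt (h : Y.Ess) (l : ℤ) : ∃ g ∈ d.ker, g ∉ Y.EllAt l := by
  by_contra q
  obtain ⟨v, -, hv⟩ := serre (Y := Y) d.ker (l := l) fun g hg => by_contra fun t => q ⟨g, hg, t⟩
  obtain ⟨g, h1, h2⟩ := h.2 v
  exact h2 (hv g h1)

lemma one_mem_ellAt (hd : Function.Surjective d) (h : Nonempty Y.V) (l : ℤ) :
    (1 : G) ∈ Y.EllAt l := by
  obtain ⟨v⟩ := h
  obtain ⟨t, ht⟩ := exists_dg hd (l - Y.lev v)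
  exact ⟨t • v, by rw [lev_smul_dg, ht]; ring, one_smul _ _⟩

/-- A map exists as soon as elliptic elements stay elliptic. -/
lemma hom_of_ellAt (hd : Function.Surjective d) {r : ℤ} (h : Y.EllAt 0 ⊆ Z.EllAt r) :
    Nonempty (Hom Y Z r) := by
  refine AccB.back_hom fun o => ?_
  obtain ⟨t, ht⟩ := exists_dg hd (Y.lev (Quotient.out o))
  obtain ⟨v, h1, h2⟩ := serre (Y := Z) (stabilizer G (Quotient.out o : Y.V))
    (l := Y.lev (Quotient.out o) + r) fun g hg => by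
      have h3 := conj_mem_ellAt t⁻¹ (show g ∈ Y.EllAt _ from ⟨_, rfl, hg⟩)
      rw [dg_inv, ht, neg_add_cancel] at h3
      have h4 := conj_mem_ellAt t (h h3)
      rw [ht] at h4
      convert h4 using 1
      group
  exact ⟨v, h1, h2⟩

lemma ell_pow_zero {ι : K →* G} (h : GPow d 0 ι (1 : Dg K)) :
    (Y.pow h).Ell = ι ⁻¹' Y.EllAt 0 := by
  ext x
  exact ⟨fun ⟨v, hv⟩ => ⟨v.1, by simpa using v.2, congrArg Subtype.val hv⟩,
    fun ⟨v, h1, h2⟩ => ⟨⟨v, by simp [h1]⟩, Subtype.ext h2⟩⟩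

lemma Ess.pow (hY : Y.Ess) (hd : Function.Surjective d) (h : GPow d k j e) : (Y.pow h).Ess := by
  obtain ⟨v, hv, -⟩ := one_mem_ellAt hd hY.1 0
  refine ⟨⟨⟨v, by rw [hv]; exact dvd_zero _⟩⟩, fun x => ?_⟩
  obtain ⟨g, h1, h2⟩ := hY.2 x.1
  obtain ⟨y, h3, rfl⟩ := h.lift_ker h1
  exact ⟨y, h3, fun q => h2 (congrArg Subtype.val q)⟩

/-! ### the induced forest -/

section Ind

variable {ι : K →* G} (h : GPow d 0 ι (1 : Dg K)) {t : G} (ht : dg d t = 1)

/-- the cocycle of the induced action -/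
noncomputable def kap (g : G) (n : ℤ) : K :=
  (h.lift (g := (t ^ (dg d g + n))⁻¹ * g * t ^ n) (by simp [dg_zpow, ht])).choose

lemma kap_spec (g : G) (n : ℤ) : ι (kap h ht g n) = (t ^ (dg d g + n))⁻¹ * g * t ^ n :=
  (h.lift (g := (t ^ (dg d g + n))⁻¹ * g * t ^ n) (by simp [dg_zpow, ht])).choose_spec

lemma kap_mul (g g' : G) (n : ℤ) :
    kap h ht (g * g') n = kap h ht g (dg d g' + n) * kap h ht g' n :=
  h.inj (by rw [map_mul, kap_spec, kap_spec, kap_spec, dg_mul, add_assoc]; group)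

lemma kap_base (x : K) (n : ℤ) : kap h ht (t ^ n * ι x) 0 = x :=
  h.inj (by rw [kap_spec, dg_mul, dg_zpow, ht, h.mul]; simp)

lemma kap_one (n : ℤ) : kap h ht 1 n = 1 := h.inj (by rw [kap_spec, dg_one]; simp)

/-- the induced action -/
@[reducible] noncomputable def indAct (T : Forest (1 : Dg K)) : MulAction G (T.V × ℤ) where
  smul g p := (kap h ht g p.2 • p.1, dg d g + p.2)
  one_smul p := by
    show (kap h ht 1 p.2 • p.1, dg d 1 + p.2) = p
    rw [kap_one, one_smul, dg_one, zero_add]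
  mul_smul g g' p := by
    show (kap h ht (g * g') p.2 • p.1, dg d (g * g') + p.2) =
      (kap h ht g (dg d g' + p.2) • kap h ht g' p.2 • p.1, dg d g + (dg d g' + p.2))
    rw [kap_mul, mul_smul, dg_mul, add_assoc]

/-- the forest induced from a tree with an action of the kernel -/
@[implicit_reducible] noncomputable def ind (T : Forest (1 : Dg K)) (h0 : ∀ a, T.lev a = 0) :
    Forest d where
  V := T.V × ℤ
  I := T.I
  act := indAct h ht T
  en i b := (T.en i b, 0)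
  lev p := p.2
  lev_smul _ _ := rfl
  lev_en _ _ := rfl
  side i p := if p.2 = 0 then T.side i p.1 else false
  side_en i b := by simp [T.side_en]
  cross i i' g hg := by
    show (if dg d g + 0 = 0 then T.side i (kap h ht g 0 • T.en i' false) else false) =
      if dg d g + 0 = 0 then T.side i (kap h ht g 0 • T.en i' true) else false
    split_ifs with q
    · refine T.cross i i' _ fun q' => hg ?_
      simp only [Prod.mk.injEq] at q' ⊢
      have := kap_spec h ht g 0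
      rw [q'.1, q, map_one] at this
      exact ⟨by simpa using this.symm, q'.2⟩
    · rfl
  conn := by
    rintro ⟨u, n⟩ ⟨v, m⟩ (rfl : n = m)
    have key : ∀ (x : K) (w : T.V), ((x • w, n) : T.V × ℤ) =
        (kap h ht (t ^ n * ι x) 0 • w, dg d (t ^ n * ι x) + 0) := fun x w => by
      rw [kap_base, dg_mul, dg_zpow, ht, h.mul]; simp
    have := T.conn u v (by rw [h0, h0])
    induction this with
    | refl => exact .refl
    | tail _ q ih =>
      obtain ⟨x, i, b, rfl, rfl⟩ := q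
      exact ih.tail ⟨t ^ n * ι x, i, b, key _ _, key _ _⟩

variable (T : Forest (1 : Dg K)) (h0 : ∀ a, T.lev a = 0)

lemma ind_smul (x : K) (v : T.V) :
    ι x • (show (ind h ht T h0).V from (v, 0)) = (show (ind h ht T h0).V from (x • v, 0)) := by
  have := kap_base h ht x 0
  rw [zpow_zero, one_mul] at this
  show (kap h ht (ι x) 0 • v, dg d (ι x) + 0) = (x • v, 0)
  rw [this, h.mul]; simp

lemma ind_ellAt (x : K) : ι x ∈ (ind h ht T h0).EllAt 0 ↔ x ∈ T.Ell := by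
  constructor
  · rintro ⟨⟨v, n⟩, (rfl : n = 0), q⟩
    exact ⟨v, congrArg Prod.fst ((ind_smul h ht T h0 x v).symm.trans q)⟩
  · rintro ⟨v, q⟩
    exact ⟨(v, 0), rfl, (ind_smul h ht T h0 x v).trans (by rw [q])⟩

lemma ind_ess (h1 : Nonempty T.V) (h2 : ∃ x, x ∉ T.Ell) : (ind h ht T h0).Ess := by
  obtain ⟨x, hx⟩ := h2
  refine ⟨⟨(h1.some, 0)⟩, fun p => ?_⟩
  refine ⟨t ^ p.2 * ι x * (t ^ p.2)⁻¹, ?_, fun q => hx ((ind_ellAt h ht T h0 x).1 ?_)⟩
  · show dg d _ = 0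
    simp [h.mul]
  · have := conj_mem_ellAt (t ^ p.2)⁻¹
      (show _ ∈ (ind h ht T h0).EllAt p.2 from ⟨p, rfl, q⟩)
    rw [dg_inv, dg_zpow, ht, mul_one, neg_add_cancel] at this
    convert this using 1
    group

end Ind

end Forest

lemma MAX.mono {E E' : Set G} (hM : MAX d E) (h : E ⊆ E') : MAX d E' :=
  fun K _ ι hi hr T h0 h1 h2 m hm h3 h4 x hx =>
    h (hM K ι hi hr T h0 h1 h2 m hm h3 (fun y hy => h4 y (h hy)) x hx)

/-- Elements that are elliptic on level zero of a virtually invariant forest. -/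
lemma MAX.ellAt {E : Set G} (hM : MAX d E) (hF : FC d) {Z : Forest d} (hZ : Z.Ess) {r : ℤ}
    (hr : r ≠ 0) (f : Hom Z Z r) (hE : E ⊆ Z.EllAt 0) : Z.EllAt 0 ⊆ E := by
  intro g hg
  obtain ⟨x, hx, hx'⟩ := hZ.exists_not_ellAt 0
  refine hM d.ker d.ker.subtype Subtype.val_injective d.ker.range_subtype (Z.pow (gpow_ker d))
    (fun a => by simp [pow_lev]) (hZ.pow hF.surj _).1 ⟨⟨x, hx⟩, by rwa [ell_pow_zero]⟩ |r|
    (abs_pos.2 hr) (fun g x y q1 q2 q3 => ?_) (fun x q => by rw [ell_pow_zero]; exact hE q)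
    ⟨g, EllAt.ker hg⟩ (by rwa [ell_pow_zero])
  rw [ell_pow_zero] at q3 ⊢
  obtain ⟨s⟩ := hF.hom_mul hZ f (dvd_neg.2 ((abs_dvd _ _).1 q1))
  have := s.ellAt _ (conj_mem_ellAt g q3)
  rw [add_zero, add_neg_cancel, ← q2] at this
  exact this

/-- MAXH: maximality in terms of maps. -/
theorem MAX.hom (hF : FC d) {T : Forest d} (hM : MAX d T.Ell) (hT : ∀ n, Nonempty (Hom T T n))
    (Z : Forest d) (r : ℤ) (hZ : Z.Ess) (hr : r ≠ 0) (f : Nonempty (Hom Z Z r))
    (p : Nonempty (Hom T Z 0)) : Nonempty (Hom Z T 0) := by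
  obtain ⟨f⟩ := f
  obtain ⟨p⟩ := p
  refine hom_of_ellAt hF.surj ?_
  rw [ellAt_eq hT]
  refine hM.ellAt hF hZ hr f ?_
  rw [← ellAt_eq hT 0]
  simpa using p.ellAt 0

/-- MAXE: after passing to a power there is an invariant forest with maximal elliptic family. -/
theorem FC.exists_max (hF : FC d) (h0 : d.ker ≠ ⊥) : ∃ (k : ℕ) (S : Subgroup G) (c : Dg S),
    Pow d k S c ∧ ∃ T : Forest c, T.Ess ∧ (∀ n, Nonempty (Hom T T n)) ∧ MAX c T.Ell := by
  obtain ⟨N, xi, hb, hm⟩ := hF.acc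
  obtain ⟨T0, e0, f0⟩ := hF.start h0
  let A : Set ℕ := {m | ∃ Z : Forest d, Z.Ess ∧ (∃ r : ℕ, 0 < r ∧ Nonempty (Hom Z Z r)) ∧ xi Z = m}
  have hne : A.Nonempty := ⟨_, T0, e0, ⟨1, one_pos, f0 _⟩, rfl⟩
  have hbd : BddAbove A := ⟨N, by rintro m ⟨Z, h1, -, rfl⟩; exact hb Z h1⟩
  obtain ⟨Z, hZ, ⟨r, hr, ⟨f⟩⟩, hx⟩ := Nat.sSup_mem hne hbd
  obtain ⟨S, c, hP⟩ := exists_pow d hr
  have h := hP.gpow
  have hall : ∀ n, Nonempty (Hom (Z.pow h) (Z.pow h) n) := fun n =>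
    let ⟨s⟩ := hF.hom_mul hZ f (dvd_mul_right (r : ℤ) n)
    ⟨s.pow h (dvd_mul_right _ _) (Int.mul_ediv_cancel_left _ (by omega)).symm⟩
  have hell : ∀ x : S, x ∈ (Z.pow h).Ell ↔ (x : G) ∈ Z.EllAt 0 := fun x => by
    rw [← ellAt_eq hall 0]
    exact ⟨fun ⟨v, h1, h2⟩ => ⟨v.1, by rw [pow_lev', h1, mul_zero], congrArg Subtype.val h2⟩,
      fun ⟨v, h1, h2⟩ => ⟨⟨v, by simp [h1]⟩, by simp [pow_lev, h1], Subtype.ext h2⟩⟩
  refine ⟨r, S, c, hP, Z.pow h, hZ.pow hF.surj h, hall, ?_⟩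
  intro K _ ι hi hra T l0 n0 x0 m hm0 inv sub
  have h' : GPow d 0 (S.subtype.comp ι) (1 : Dg K) := by
    simpa using h.comp (gpow_zero hi hra)
  obtain ⟨t, ht⟩ := exists_dg hF.surj 1
  have eW := ind_ess h' ht T l0 n0 x0
  obtain ⟨p⟩ : Nonempty (Hom Z (ind h' ht T l0) 0) := hom_of_ellAt hF.surj fun g hg => by
    obtain ⟨x, -, rfl⟩ := h'.lift_ker (EllAt.ker hg)
    exact (ind_ellAt h' ht T l0 x).2 (sub x ((hell _).2 hg))
  obtain ⟨m, rfl⟩ := Int.eq_ofNat_of_zero_le hm0.le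
  have q : Nonempty (Hom (ind h' ht T l0) (ind h' ht T l0) (r * m : ℕ)) :=
    hom_of_ellAt hF.surj fun g hg => by
      obtain ⟨x, -, rfl⟩ := h'.lift_ker (EllAt.ker hg)
      obtain ⟨u, hu⟩ := exists_dg (h.surj hr hF.surj) m
      obtain ⟨y, -, hy⟩ := (gpow_zero hi hra).lift_ker (g := u⁻¹ * ι x * u⁻¹⁻¹) (by
        rw [mem_ker_dg]; simp [(gpow_zero hi hra).mul])
      have h1 := inv u⁻¹ x y (by rw [dg_inv, hu]; simp) hy ((ind_ellAt h' ht T l0 x).1 hg)
      have h2 := conj_mem_ellAt (u : G) ((ind_ellAt h' ht T l0 y).2 h1)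
      rw [hP.deg, hu, add_zero] at h2
      convert h2 using 1
      · simp
      · simp [hy, mul_assoc]
  obtain ⟨s⟩ := (hm Z _ 0 p hZ eW).2 (by
    rw [hx]
    exact le_csSup hbd ⟨_, eW, ⟨r * m, Nat.mul_pos hr (by omega), q⟩, rfl⟩)
  intro x hx'
  simpa [hell] using s.ellAt 0 ((ind_ellAt h' ht T l0 x).2 hx')

end Pool.Agent.Lib.FBC
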