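import Pool.Agent.Lib.FBC.X1.TT
import Pool.Agent.Lib.FBC.X1.Max

/-!
The train track part of the structure theorem.
-/

namespace Pool.Agent.Lib.FBC

theorem stTT : St_TT := by
  refine TT_of (fun G _ d hF h0 => ?_) (fun G _ d Y hF hM hT _ => MAX.hom hF hM hT)
    fun G _ d hF => hF.rank
  obtain ⟨k, S, c, hP, T, hE, hT, hM⟩ := hF.exists_max h0
  obtain ⟨f⟩ := hT 1
  exact ⟨k, S, c, hP, T, f, hE, hM⟩

end Pool.Agent.Lib.FBC
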