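import Pool.Agent.Lib.FBC.X1.Pow
import Pool.Agent.Lib.FBC.T2.Leg

set_option linter.unusedVariables false

/-!
Powers of train tracks are train tracks, with the same legal geodesics.
-/

namespace Pool.Agent.Lib.FBC

open Forest T2

variable {G H : Type} [Group G] [Group H] {d : Dg G} {e : Dg H} {k : ℕ} {j : H →* G}
  {Y : Forest d} {s : Flow Y}

namespace Flow

/-- An interior descendant of a dart of a legal geodesic is interior to the image. -/
lemma IDesc.of_cross {a b : Y.V} {c c' : Y.Dir} {n : ℕ} (h : s.LegalP a b) (hc : Y.Cross a b c)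
    (q : s.IDesc n c c') : Y.Cross (s.σ^[n] a) (s.σ^[n] b) c' ∧ c'.src ≠ s.σ^[n] a ∧
      c'.tgt ≠ s.σ^[n] b := by
  have h1 := h.2 _ _ _ (btw_left h.1) hc.btw_src hc.btw_tgt hc.btw1 n
  have h2 := h.2 _ _ _ hc.btw_src hc.btw_tgt (btw_right h.1) hc.btw2 n
  have h3 := h.2 _ _ _ (btw_left h.1) hc.btw_tgt (btw_right h.1) hc.btw_tgt n
  refine ⟨Cross.extend q.1 h1 h3, fun t => q.2.1 ?_, fun t => q.2.2 ?_⟩
  · have := Cross.btw_src q.1
    rw [t] at this ⊢
    exact h1.antisymm' this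
  · have := Cross.btw_tgt q.1
    rw [t] at this ⊢
    exact this.antisymm h2

lemma TT.prim_iter (T : s.TT) {n : ℕ} (hn : 0 < n) (c : Y.Dir) (i : Y.I) :
    ∃ c' c'' : Y.Dir, c'.1 ≠ c''.1 ∧ c'.1.i = i ∧ c''.1.i = i ∧ s.IDesc n c c' ∧
      s.IDesc n c c'' := by
  obtain ⟨m, rfl⟩ : ∃ m, n = m + 1 := ⟨n - 1, by omega⟩
  have h := lp_it T (lp_adj (adj_dir c)) m
  obtain ⟨x, -, hx⟩ := exists_step h.1 (exp_ne T (lp_adj (adj_dir c)) (src_ne_tgt c) m)
  obtain ⟨c', c'', h1, h2, h3, h4, h5⟩ := T.prim x i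
  have k4 := h4.of_cross h hx
  have k5 := h5.of_cross h hx
  simp only [← Function.iterate_add_apply, add_comm 1 m] at k4 k5
  exact ⟨c', c'', h1, h2, h3, k4, k5⟩

lemma TT.pow (T : s.TT) (h : GPow d k j e) (hk : 0 < k) : (s.pow h hk).TT where
  ne := T.ne
  legal c := LegalP.pow (lp_it T (lp_adj (adj_dir c.up)) k)
  prim c i := by
    obtain ⟨c', c'', h1, h2, h3, h4, h5⟩ := T.prim_iter hk c.up i
    have l : ∀ x : Y.Dir, s.IDesc k c.up x → (k : ℤ) ∣ Y.lev x.src := fun x hx => by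
      rw [← Cross.lev_src hx.1]
      exact ((s.pow h hk).σ c.src).2
    obtain ⟨a', rfl⟩ := exists_dir_up h (l _ h4)
    obtain ⟨a'', rfl⟩ := exists_dir_up h (l _ h5)
    exact ⟨a', a'', fun q => h1 (congrArg E.up q), h2, h3,
      idesc_pow.2 (by rwa [mul_one]), idesc_pow.2 (by rwa [mul_one])⟩

/-- A geodesic whose order is kept at arbitrarily late times is legal. -/
lemma TT.legalP_of_freq (T : s.TT) {a b : Y.V} (l : Y.lev a = Y.lev b)
    (h : ∀ x y z, Y.btw a x b → Y.btw a y b → Y.btw a z b → Y.btw x y z → ∀ m, ∃ n ≥ m,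
      Y.btw (s.σ^[n] x) (s.σ^[n] y) (s.σ^[n] z)) : s.LegalP a b := by
  have key : ∀ x, Y.lev x = Y.lev b → Y.btw a x b → s.LegalP x b := fun x lx => by
    refine ds_ind (P := fun x => Y.btw a x b → s.LegalP x b) (fun _ => lp_refl _)
      (fun x y h1 h2 ih hx => ?_) lx
    have hy := hx.trans_right h2
    have p1 := lp_adj (s := s) h1
    have p2 := ih hy
    refine lp_cat p1 p2 fun m => ?_
    obtain ⟨n, hn, h3⟩ := h x y b hx hy (btw_right l) h2 m
    obtain ⟨r, rfl⟩ := Nat.exists_eq_add_of_le' hn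
    have q1 := lp_it T (lp_symm p1) m
    have q2 := lp_it T p2 m
    obtain ⟨μ, m1, m2, m3⟩ := exists_med q1.1 q2.1
    by_cases q : s.σ^[m] y = μ
    · rwa [← q] at m2
    have t1 := lp_lg q1 m1 r
    have t2 := lp_lg q2 m3 r
    have t3 := exp_ne T (lp_left q1 m1) q r
    simp only [← Function.iterate_add_apply] at t1 t2 t3
    exact (t3 (t2.antisymm' (h3.trans_left' t1.symm))).elim
  exact key a l (btw_left l)

lemma TT.legalP_pow (T : s.TT) {h : GPow d k j e} {hk : 0 < k} {a b : (Y.pow h).V} :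
    (s.pow h hk).LegalP a b ↔ s.LegalP a.1 b.1 := by
  refine ⟨fun q => T.legalP_of_freq (pow_lev_iff.1 q.1) fun x y z hx hy hz t m => ?_, LegalP.pow⟩
  exact ⟨k * m, Nat.le_mul_of_pos_left m hk, s.legal_pow_iff.1
    (q.2 (mkPow a x hx.1) (mkPow a y hy.1) (mkPow a z hz.1) (btw_pow.2 hx) (btw_pow.2 hy)
      (btw_pow.2 hz) (btw_pow.2 t)) m⟩

end Flow

end Pool.Agent.Lib.FBC
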