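import Pool.Agent.Lib.FBC.Blue0
import Pool.Agent.Lib.FBC.EM
import Pool.Agent.Lib.FBC.FGG

set_option linter.unusedVariables false

/-!
Vertex stabilizers are finitely generated, and two vertex groups generate a free product.
-/

namespace Pool.Agent.Lib.FBC

open Forest MulAction

variable {G : Type} [Group G] {d : Dg G} {Y : Forest d}

namespace X1

open Classical in
/-- the element itself if it fixes `a`, and otherwise the first edge towards the image of `a` -/
noncomputable def nu (a : Y.V) (g : G) : G ⊕ Y.E :=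
  if h : Y.lev a = Y.lev (g • a) ∧ a ≠ g • a then Sum.inr (exists_step h.1 h.2).choose.1
  else Sum.inl g

lemma nu_fix {a : Y.V} {g : G} (h : g • a = a) : nu a g = Sum.inl g :=
  dif_neg fun q => q.2 h.symm

lemma nu_step {a : Y.V} {g : G} {e : Y.Dir} (h1 : e.src = a) (h2 : Y.Cross a (g • a) e) :
    nu a g = Sum.inr e.1 := by
  have := (exists_step h2.lev h2.ne).choose_spec
  rw [nu, dif_pos ⟨h2.lev, h2.ne⟩, step_unique this.2 h2 (this.1.trans h1.symm)]

lemma lev_ker {g : G} (hg : g ∈ d.ker) (a : Y.V) : Y.lev a = Y.lev (g • a) := by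
  rw [lev_smul', mem_ker_iff.1 hg, add_zero]

lemma nu_mul {a : Y.V} {x g : G} (hx : x • a = a) (hg : g ∈ d.ker) :
    nu a (x * g) = x • nu a g := by
  by_cases q : g • a = a
  · rw [nu_fix q, nu_fix (by rw [mul_smul, q, hx])]; rfl
  · obtain ⟨e, h1, h2⟩ := exists_step (lev_ker hg a) (Ne.symm q)
    have h3 := h2.smul x
    rw [hx, ← mul_smul] at h3
    rw [nu_step h1 h2, nu_step (by rw [src_tr, h1, hx]) h3]; rfl

lemma btw_of_nu {a : Y.V} {g g' : G} (hg : g ∈ d.ker) (hg' : g' ∈ d.ker)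
    (h : nu a g ≠ nu a g') : Y.btw (g • a) a (g' • a) := by
  by_cases q : g • a = a
  · rw [q]; exact btw_left (lev_ker hg' a)
  by_cases q' : g' • a = a
  · rw [q']; exact btw_right (lev_ker hg a).symm
  obtain ⟨e, h1, h2⟩ := exists_step (lev_ker hg a) (Ne.symm q)
  obtain ⟨e', h1', h2'⟩ := exists_step (lev_ker hg' a) (Ne.symm q')
  rw [nu_step h1 h2, nu_step h1' h2'] at h
  have := btw_of_turn (h1.trans h1'.symm) (fun t => h (by rw [t])) h2.2 h2'.2
  rwa [h1] at this

lemma fg_stab (K : Subgroup G) (x : G ⊕ Y.E) : (K ⊓ stabilizer G x).FG := by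
  have : stabilizer G x = ⊥ := by
    rw [eq_bot_iff]
    intro g hg
    rw [mem_stabilizer_iff] at hg
    rcases x with x | x
    · exact mul_eq_right.1 (Sum.inl_injective hg)
    · exact smul_eq_self (Sum.inr_injective hg)
  rw [this, inf_bot_eq]
  exact ⟨∅, by simp⟩

/-- normal forms in two vertex groups; the flag tells that the first letter may be from `A` -/
inductive NFm (A B : Subgroup G) : G → Bool → Prop
  | base {x : G} : x ∈ A → NFm A B x true
  | consB {y s : G} : y ∈ B → y ≠ 1 → NFm A B s true → NFm A B (y * s) false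
  | consA {x s : G} : x ∈ A → x ≠ 1 → NFm A B s false → NFm A B (x * s) true

lemma NFm.mulA {A B : Subgroup G} {s x : G} {t : Bool} (h : NFm A B s t) (hx : x ∈ A) :
    ∃ t', NFm A B (x * s) t' := by
  have key : ∀ x ∈ A, ∀ s, NFm A B s false → ∃ t', NFm A B (x * s) t' := fun x hx s h => by
    by_cases q : x = 1
    · exact ⟨_, by rwa [q, one_mul]⟩
    · exact ⟨_, .consA hx q h⟩
  cases h with
  | base h => exact ⟨_, .base (A.mul_mem hx h)⟩
  | consB h1 h2 h3 => exact key x hx _ (.consB h1 h2 h3)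
  | consA h1 h2 h3 => rw [← mul_assoc]; exact key _ (A.mul_mem hx h1) _ h3

lemma NFm.mulB {A B : Subgroup G} {s y : G} {t : Bool} (h : NFm A B s t) (hy : y ∈ B) :
    ∃ t', NFm A B (y * s) t' := by
  have key : ∀ y ∈ B, ∀ s, NFm A B s true → ∃ t', NFm A B (y * s) t' := fun y hy s h => by
    by_cases q : y = 1
    · exact ⟨_, by rwa [q, one_mul]⟩
    · exact ⟨_, .consB hy q h⟩
  cases h with
  | base h => exact key y hy _ (.base h)
  | consB h1 h2 h3 => rw [← mul_assoc]; exact key _ (B.mul_mem hy h1) _ h3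
  | consA h1 h2 h3 => exact key y hy _ (.consA h1 h2 h3)

lemma exists_nfm {A B : Subgroup G} {z : G} (hz : z ∈ A ⊔ B) : ∃ t, NFm A B z t := by
  rw [Subgroup.sup_eq_closure] at hz
  induction hz using Subgroup.closure_induction_left with
  | one => exact ⟨_, .base A.one_mem⟩
  | mul_left x hx y _ ih =>
    obtain ⟨t, h⟩ := ih
    exact hx.elim h.mulA h.mulB
  | inv_mul_cancel x hx y _ ih =>
    obtain ⟨t, h⟩ := ih
    exact hx.elim (fun q => h.mulA (A.inv_mem q)) fun q => h.mulB (B.inv_mem q)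

/-- a nontrivial element fixing the source of a dart moves the half-tree off itself -/
lemma smul_mem_rv {e : Y.Dir} {g : G} (hg : g ≠ 1) (h : g • e.src = e.src) {v : Y.V}
    (hv : v ∈ e.H) : g • v ∈ e.rv.H ∧ g • v ≠ e.src := by
  have h1 := (smul_mem_H g).2 hv
  have h2 : (e.tr g).src = e.src := by rw [src_tr, h]
  refine ⟨mem_rv_H_of_not (h1.1.trans (congrArg _ h2)) fun q => ?_, fun q => ?_⟩
  · exact hg (eq_one_of_tr (congrArg Prod.fst (step_unique (a := e.src) (b := g • v)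
      ⟨h2 ▸ src_mem_rv_H _, h1⟩ ⟨src_mem_rv_H _, q⟩ h2)))
  · rw [q, ← h2] at h1
    exact src_not_mem_H _ h1

lemma H_subset_first {e c : Y.Dir} {b : Y.V} (he : Y.Cross e.src b e) (hc : Y.Cross e.src b c) :
    c.H ⊆ e.H := fun v hv => by
  have h1 : c.tgt ∈ e.H := by
    rcases he.side hc.btw_tgt with t | t
    · exact (not_mem_H_both (t.eq_of_self ▸ tgt_mem_H c) hc.1).elim
    · exact t.mem_H (tgt_mem_H e) he.2
  exact mem_H_of_not (hv.1.trans hc.lev_src.symm) fun q =>
    not_mem_H_both h1 ((Cross.btw_tgt ⟨hc.1, hv⟩).mem_H (src_mem_rv_H e) q)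

end X1

open X1 in
/-- Two subgroups fixing different vertices of one level generate a free product. -/
theorem Forest.free_prod {A B : Subgroup G} {a b : Y.V} (l : Y.lev a = Y.lev b) (hne : a ≠ b)
    (hA : ∀ x ∈ A, x • a = a) (hB : ∀ y ∈ B, y • b = b) {z : G} (hz : z ∈ A ⊔ B)
    (h : z • a = a) : z ∈ A := by
  obtain ⟨e, rfl, he⟩ := exists_step l hne
  obtain ⟨c, rfl, hc⟩ := exists_step l.symm hne.symm
  have s1 : c.rv.H ⊆ e.H := H_subset_first he hc.symm
  have s2 : e.rv.H ⊆ c.H := H_subset_first hc he.symm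
  have key : ∀ s t, NFm A B s t → (t = true → s • e.src ∈ e.rv.H ∧ (s • e.src = e.src → s ∈ A)) ∧
      (t = false → s • e.src ∈ c.rv.H) := fun s t q => by
    induction q with
    | base h1 => exact ⟨fun _ => ⟨by rw [hA _ h1]; exact src_mem_rv_H e, fun _ => h1⟩, by simp⟩
    | consB h1 h2 _ ih =>
      refine ⟨by simp, fun _ => ?_⟩
      rw [mul_smul]
      exact (smul_mem_rv h2 (hB _ h1) (s2 (ih.1 rfl).1)).1
    | consA h1 h2 _ ih =>
      refine ⟨fun _ => ?_, by simp⟩
      rw [mul_smul]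
      have := smul_mem_rv h2 (hA _ h1) (s1 (ih.2 rfl))
      exact ⟨this.1, fun q => (this.2 q).elim⟩
  obtain ⟨t, q⟩ := exists_nfm hz
  cases t
  · have := s1 ((key _ _ q).2 rfl)
    rw [h] at this
    exact (src_not_mem_H _ this).elim
  · exact ((key _ _ q).1 rfl).2 h

theorem stFP : St_FP := by
  intro G _ d Y a b x y z l hne hx hy hz h
  refine Forest.free_prod (B := Subgroup.zpowers y) l hne ?_ ?_ ?_ h
  · exact fun g hg => (Subgroup.zpowers_le (H := stabilizer G a)).2 hx hg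
  · exact fun g hg => (Subgroup.zpowers_le (H := stabilizer G b)).2 hy hg
  · rwa [Subgroup.zpowers_eq_closure, Subgroup.zpowers_eq_closure, ← Subgroup.closure_union]

open X1 in
theorem stFGV : St_FGV := by
  classical
  intro G _ d hd Y a
  obtain ⟨S, hS, hf⟩ := (Subgroup.fg_iff _).1 hd
  have hm : ∀ s ∈ S, s ∈ d.ker := fun s hs => hS ▸ Subgroup.subset_closure hs
  have h1 : ∀ u : Y.V, ∃ g ∈ d.ker, (∃ g ∈ d.ker, g • u = a) → g • u = a := fun u => by
    by_cases q : ∃ g ∈ d.ker, g • u = a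
    · obtain ⟨g, q1, q2⟩ := q
      exact ⟨g, q1, fun _ => q2⟩
    · exact ⟨1, d.ker.one_mem, fun t => (q t).elim⟩
  choose r r1 r2 using h1
  let R : G ⊕ Y.E → G ⊕ Y.E → Prop := fun x y =>
    x ≠ y ∧ ∃ g ∈ d.ker, ∃ s ∈ S, x = nu a g ∧ y = nu a (g * s)
  have step : ∀ g ∈ d.ker, ∀ s ∈ S, Relation.EqvGen R (nu a g) (nu a (g * s)) := fun g hg s hs => by
    by_cases q : nu a g = nu a (g * s)
    · rw [q]; exact .refl _
    · exact .rel _ _ ⟨q, g, hg, s, hs, rfl, rfl⟩
  have conn : ∀ g ∈ Subgroup.closure S, Relation.EqvGen R (nu a 1) (nu a g) := fun g hg => by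
    induction hg using Subgroup.closure_induction_right with
    | one => exact .refl _
    | mul_right x hx y hy ih => exact .trans _ _ _ ih (step x (hS ▸ hx) y hy)
    | mul_inv_cancel x hx y hy ih =>
      have := step (x * y⁻¹) (d.ker.mul_mem (hS ▸ hx) (d.ker.inv_mem (hm y hy))) y hy
      rw [inv_mul_cancel_right] at this
      exact .trans _ _ _ ih (.symm _ _ this)
  have hk : ∀ g : G, g • a = a → g ∈ d.ker := fun g hg => mem_ker_iff.2 (deg_eq_zero_of_fix hg)
  refine fgg (stabilizer G a) R (nu a 1)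
    (⋃ s ∈ S, (fun u => (nu a (r u), nu a (r u * s))) '' {u | Y.btw a u (s • a)})
    (hf.biUnion fun s _ => (finite_btw _ _).image _) (fun g hg => ?_) ?_ (fg_stab _ _)
    fun _ _ => ⟨fg_stab _ _, fg_stab _ _⟩
  · rw [← nu_mul hg d.ker.one_mem, mul_one]
    exact conn g (hS ▸ hk g hg)
  · rintro x y ⟨hne, g, hg, s, hs, rfl, rfl⟩
    have hgs := d.ker.mul_mem hg (hm s hs)
    have h2 := (btw_of_nu hg hgs hne).smul g⁻¹
    rw [inv_smul_smul, mul_smul, inv_smul_smul] at h2
    have h3 := r2 (g⁻¹ • a) ⟨g, hg, smul_inv_smul _ _⟩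
    rw [← mul_smul] at h3
    refine ⟨_, h3, Set.mem_biUnion hs ⟨g⁻¹ • a, h2, ?_⟩⟩
    rw [← nu_mul h3 hg, ← nu_mul h3 hgs, inv_mul_cancel_right, ← mul_assoc, inv_mul_cancel_right]

end Pool.Agent.Lib.FBC
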