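import Pool.Agent.Lib.FBC.EM

set_option linter.unusedVariables false

/-!
Passage to the preimage of `kℤ`: groups, forests, maps, flows, pairs.  The case `k = 0` is the
restriction to level zero.  Also the reversal of the level function.
-/

namespace Pool.Agent.Lib.FBC

open Forest

variable {G H K : Type} [Group G] [Group H] [Group K] {d d' : Dg G} {e e' : Dg H} {k : ℕ}
  {j : H →* G}

lemma dg_neg (d : Dg G) (x : G) : dg d⁻¹ x = - dg d x := rfl
lemma dg_triv (x : G) : dg (1 : Dg G) x = 0 := rfl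
lemma mem_ker_dg {x : G} : x ∈ d.ker ↔ dg d x = 0 := Iff.rfl
lemma dg_ext (h : ∀ x, dg d x = dg d' x) : d = d' := MonoidHom.ext h

lemma exists_dg (h : Function.Surjective d) (n : ℤ) : ∃ t, dg d t = n :=
  h (Multiplicative.ofAdd n)

/-- `j` identifies `H` with the preimage of `kℤ` and `e` is the degree divided by `k`. -/
structure GPow (d : Dg G) (k : ℕ) (j : H →* G) (e : Dg H) : Prop where
  inj : Function.Injective j
  mem : ∀ g, g ∈ j.range ↔ (k : ℤ) ∣ dg d g
  deg : ∀ x, dg e x = dg d (j x) / k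

namespace GPow

lemma dvd (h : GPow d k j e) (x : H) : (k : ℤ) ∣ dg d (j x) := (h.mem _).1 ⟨x, rfl⟩

lemma mul (h : GPow d k j e) (x : H) : dg d (j x) = k * dg e x := by
  rw [h.deg, Int.mul_ediv_cancel' (h.dvd x)]

lemma lift (h : GPow d k j e) {g : G} (hg : (k : ℤ) ∣ dg d g) : ∃ x, j x = g := (h.mem g).2 hg

lemma lift_ker (h : GPow d k j e) {g : G} (hg : g ∈ d.ker) : ∃ x ∈ e.ker, j x = g := by
  obtain ⟨x, rfl⟩ := h.lift (g := g) (by rw [mem_ker_dg.1 hg]; exact dvd_zero _)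
  exact ⟨x, by rw [mem_ker_dg, h.deg, mem_ker_dg.1 hg, Int.zero_ediv], rfl⟩

lemma map_ker (h : GPow d k j e) {x : H} (hx : x ∈ e.ker) : j x ∈ d.ker := by
  rw [mem_ker_dg, h.mul, mem_ker_dg.1 hx, mul_zero]

lemma mem_ker (h : GPow d k j e) {x : H} : x ∈ e.ker ↔ j x ∈ d.ker := by
  refine ⟨h.map_ker, fun hx => ?_⟩
  obtain ⟨y, hy, hxy⟩ := h.lift_ker hx
  rwa [← h.inj hxy]

lemma ker_map (h : GPow d k j e) : e.ker.map j = d.ker := by
  ext g
  exact ⟨fun ⟨x, hx, hg⟩ => hg ▸ h.map_ker hx, fun hg => h.lift_ker hg⟩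

lemma neg (h : GPow d k j e) (hd : ∀ g, dg d' g = - dg d g) : GPow d' k j e⁻¹ where
  inj := h.inj
  mem g := by rw [hd, dvd_neg, h.mem]
  deg x := by rw [dg_neg, hd, h.deg, Int.neg_ediv_of_dvd (h.dvd x)]

lemma of_mul (hk : 0 < k) (hi : Function.Injective j)
    (hm : ∀ g, g ∈ j.range ↔ (k : ℤ) ∣ dg d g) (hd : ∀ x, dg d (j x) = k * dg e x) :
    GPow d k j e :=
  ⟨hi, hm, fun x => by rw [hd, Int.mul_ediv_cancel_left _ (by omega)]⟩

lemma comp {k' : ℕ} {i : K →* H} {c : Dg K} (h : GPow d k j e) (h' : GPow e k' i c) :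
    GPow d (k * k') (j.comp i) c where
  inj := h.inj.comp h'.inj
  mem g := by
    constructor
    · rintro ⟨x, rfl⟩
      rw [MonoidHom.comp_apply, h.mul, h'.mul, ← mul_assoc]
      push_cast
      exact dvd_mul_right _ _
    · intro hg
      push_cast at hg
      obtain ⟨x, rfl⟩ := h.lift ((dvd_mul_right _ _).trans hg)
      have : (k' : ℤ) ∣ dg e x := by
        rcases Nat.eq_zero_or_pos k with rfl | hk
        · rw [h.deg]; simp
        · rw [h.mul] at hg
          exact (mul_dvd_mul_iff_left (by omega)).1 hg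
      obtain ⟨y, rfl⟩ := h'.lift this
      exact ⟨y, rfl⟩
  deg x := by
    rw [h'.deg, h.deg, MonoidHom.comp_apply, Int.ediv_ediv_of_nonneg (by omega)]
    push_cast
    rfl

lemma surj (h : GPow d k j e) (hk : 0 < k) (hs : Function.Surjective d) :
    Function.Surjective e := fun n => by
  obtain ⟨t, ht⟩ := exists_dg hs (k * n.toAdd)
  obtain ⟨x, rfl⟩ := h.lift (g := t) (by rw [ht]; exact dvd_mul_right _ _)
  refine ⟨x, ?_⟩
  have := h.deg x
  rw [ht, Int.mul_ediv_cancel_left _ (by omega)] at this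
  exact this

/-- the kernels are isomorphic -/
noncomputable def kerEquiv (h : GPow d k j e) : e.ker ≃* d.ker :=
  (e.ker.equivMapOfInjective j h.inj).trans (MulEquiv.subgroupCongr h.ker_map)

@[simp] lemma kerEquiv_apply (h : GPow d k j e) (x : e.ker) : (h.kerEquiv x : G) = j x := rfl

end GPow

lemma gpow_zero {ι : K →* G} (hi : Function.Injective ι) (hr : ι.range = d.ker) :
    GPow d 0 ι (1 : Dg K) :=
  ⟨hi, fun g => by rw [hr, mem_ker_dg]; simp, fun x => by simp [dg_triv]⟩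

lemma gpow_ker (d : Dg G) : GPow d 0 d.ker.subtype (1 : Dg d.ker) :=
  gpow_zero Subtype.val_injective d.ker.range_subtype

lemma gpow_one (d : Dg G) : GPow d 1 (MonoidHom.id G) d :=
  ⟨fun _ _ h => h, fun g => by simp, fun x => by simp⟩

lemma Pow.gpow {S : Subgroup G} {c : Dg S} (h : Pow d k S c) : GPow d k S.subtype c :=
  GPow.of_mul h.pos Subtype.val_injective (fun g => by rw [S.range_subtype, h.mem]) h.deg

lemma GPow.pow {S : Subgroup G} {c : Dg S} (h : GPow d k S.subtype c) (hk : 0 < k) :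
    Pow d k S c :=
  ⟨hk, fun g => by rw [← h.mem, S.range_subtype], h.mul⟩

lemma exists_pow (d : Dg G) (hk : 0 < k) : ∃ (S : Subgroup G) (c : Dg S), Pow d k S c := by
  let S : Subgroup G :=
    { carrier := {g | (k : ℤ) ∣ dg d g}
      mul_mem' := fun {a b} ha hb => by
        show (k : ℤ) ∣ dg d (a * b)
        rw [dg_mul]; exact dvd_add ha hb
      one_mem' := by
        show (k : ℤ) ∣ dg d 1
        rw [dg_one]; exact dvd_zero _
      inv_mem' := fun {a} ha => by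
        show (k : ℤ) ∣ dg d a⁻¹
        rw [dg_inv]; exact dvd_neg.2 ha }
  refine ⟨S, MonoidHom.mk' (fun x => Multiplicative.ofAdd (dg d x / k)) fun a b => ?_, hk,
    fun _ => Iff.rfl, fun x => (Int.mul_ediv_cancel' x.2).symm⟩
  rw [← ofAdd_add, Subgroup.coe_mul, dg_mul, Int.add_ediv_of_dvd_left a.2]

/-- A deeper power factors through a given power. -/
lemma GPow.factor {n : ℕ} {i : K →* G} {c : Dg K} (h : GPow d k j e) (hk : 0 < k)
    (h' : GPow d (k * n) i c) : ∃ r : K →* H, j.comp r = i ∧ GPow e n r c := by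
  have h1 : ∀ x, ∃ y, j y = i x := fun x => h.lift (by
    have := h'.dvd x
    push_cast at this
    exact (dvd_mul_right _ _).trans this)
  choose r hr using h1
  refine ⟨MonoidHom.mk' r fun a b => h.inj (by rw [map_mul, hr, hr, hr, map_mul]),
    MonoidHom.ext hr, fun a b hab => h'.inj (by rw [← hr, ← hr]; exact congrArg j hab),
    fun y => ⟨?_, fun hy => ?_⟩, fun x => ?_⟩
  · rintro ⟨x, rfl⟩
    have h2 := h'.dvd x
    rw [← hr, h.mul] at h2
    push_cast at h2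
    exact (mul_dvd_mul_iff_left (by omega)).1 h2
  · obtain ⟨x, hx⟩ := h'.lift (g := j y) (by
      rw [h.mul]; push_cast; exact mul_dvd_mul_left _ hy)
    exact ⟨x, h.inj ((hr x).trans hx)⟩
  · rw [h'.deg, h.deg, MonoidHom.mk'_apply, hr, Int.ediv_ediv_of_nonneg (by omega)]
    push_cast
    rfl

lemma FC.pow (hF : FC d) (h : GPow d k j e) (hk : 0 < k) : FC e where
  surj := h.surj hk hF.surj
  free := by
    have := hF.free
    exact IsFreeGroup.ofMulEquiv h.kerEquiv.symm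
  fg := by
    have := (Group.fg_iff_subgroup_fg _).2 hF.fg
    exact (Group.fg_iff_subgroup_fg _).1
      (Group.fg_of_surjective (f := h.kerEquiv.symm.toMonoidHom) h.kerEquiv.symm.surjective)
  lerf := hF.lerf.of_injective j h.inj

lemma MAX.pow {E : Set G} (hM : MAX d E) (h : GPow d k j e) (hk : 0 < k) :
    MAX e (j ⁻¹' E) := by
  intro K _ ι hi hr T h0 h1 h2 m hm h3 h4
  refine hM K (j.comp ι) (h.inj.comp hi) ?_ T h0 h1 h2 (k * m) (by positivity) ?_ h4
  · rw [← MonoidHom.map_range, hr, h.ker_map]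
  · intro g x y hg hxy
    obtain ⟨g', rfl⟩ := h.lift ((dvd_mul_right _ _).trans hg)
    rw [h.mul] at hg
    refine h3 g' x y ((mul_dvd_mul_iff_left (by omega)).1 hg) (h.inj ?_)
    simpa using hxy

lemma MAX.neg {E : Set G} (hM : MAX d E) (hd : ∀ g, dg d' g = - dg d g) : MAX d' E := by
  have hk : d'.ker = d.ker := by
    ext g; rw [mem_ker_dg, mem_ker_dg, hd, neg_eq_zero]
  intro K _ ι hi hr T h0 h1 h2 m hm h3 h4
  exact hM K ι hi (hr.trans hk) T h0 h1 h2 m hm
    (fun g x y hg => h3 g x y (by rw [hd]; exact dvd_neg.2 hg)) h4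

namespace Forest

variable {Y Z : Forest d}

lemma lev_smul_dg (g : G) (v : Y.V) : Y.lev (g • v) = dg d g + Y.lev v := Y.lev_smul g v

lemma lev_ed' (c : Y.E) (b : Bool) : Y.lev (c.ed b) = dg d c.g := lev_ed c b

lemma dg_of_fix {g : G} {v : Y.V} (h : g • v = v) : dg d g = 0 := by
  have := lev_smul_dg g v
  rw [h] at this
  omega

/-- the action of `H` on the levels in `kℤ` -/
@[reducible] def powAct (Y : Forest d) (h : GPow d k j e) :
    MulAction H {v : Y.V // (k : ℤ) ∣ Y.lev v} where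
  smul x v := ⟨j x • v.1, by rw [lev_smul_dg]; exact dvd_add (h.dvd x) v.2⟩
  one_smul v := Subtype.ext (show j 1 • v.1 = v.1 by rw [map_one, one_smul])
  mul_smul x y v := Subtype.ext (show j (x * y) • v.1 = j x • j y • v.1 by rw [map_mul, mul_smul])

/-- restriction of a forest to the levels in `kℤ` -/
@[implicit_reducible] def pow (Y : Forest d) (h : GPow d k j e) : Forest e where
  V := {v : Y.V // (k : ℤ) ∣ Y.lev v}
  I := Y.I
  act := Y.powAct h
  en i b := ⟨Y.en i b, by rw [Y.lev_en]; exact dvd_zero _⟩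
  lev v := Y.lev v.1 / k
  lev_smul x v := by
    show Y.lev (j x • v.1) / k = dg e x + Y.lev v.1 / k
    rw [lev_smul_dg, Int.add_ediv_of_dvd_left (h.dvd x), h.deg]
  lev_en i b := by
    show Y.lev (Y.en i b) / k = 0
    rw [Y.lev_en, Int.zero_ediv]
  side i v := Y.side i v.1
  side_en i b := Y.side_en i b
  cross i i' x hx := Y.cross i i' (j x) fun q => hx (by
    simp only [Prod.mk.injEq] at q ⊢
    exact ⟨h.inj (q.1.trans (map_one j).symm), q.2⟩)
  conn u v huv := by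
    have h1 : Y.lev u.1 = Y.lev v.1 := by
      rw [← Int.mul_ediv_cancel' u.2, ← Int.mul_ediv_cancel' v.2]
      exact congrArg _ huv
    obtain ⟨v, hv⟩ := v
    have h2 : Relation.ReflTransGen Adj u.1 v := conn' h1
    clear huv h1
    induction h2 with
    | refl => exact .refl
    | @tail x y hx hxy ih =>
      have hx' : (k : ℤ) ∣ Y.lev x := by rw [hxy.lev]; exact hv
      obtain ⟨c, b, rfl, rfl⟩ := hxy
      obtain ⟨g, hg⟩ := h.lift (g := c.g) (by rw [← lev_ed' c b]; exact hx')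
      exact (ih hx').tail ⟨g, c.i, b, Subtype.ext (show c.g • _ = j g • _ by rw [hg]),
        Subtype.ext (show c.g • _ = j g • _ by rw [hg])⟩

variable {h : GPow d k j e}

@[simp] lemma pow_smul (x : H) (v : (Y.pow h).V) : (x • v).1 = j x • v.1 := rfl

lemma pow_lev (v : (Y.pow h).V) : (Y.pow h).lev v = Y.lev v.1 / k := rfl

lemma pow_lev' (v : (Y.pow h).V) : Y.lev v.1 = k * (Y.pow h).lev v :=
  (Int.mul_ediv_cancel' v.2).symm

lemma pow_lev_iff {u v : (Y.pow h).V} :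
    (Y.pow h).lev u = (Y.pow h).lev v ↔ Y.lev u.1 = Y.lev v.1 :=
  ⟨fun q => by rw [pow_lev', pow_lev', q], fun q => by rw [pow_lev, pow_lev, q]⟩

/-- an edge of the restricted forest as an edge of the forest -/
def E.up (c : (Y.pow h).E) : Y.E := ⟨j c.g, c.i⟩

@[simp] lemma up_i (c : (Y.pow h).E) : c.up.i = c.i := rfl
@[simp] lemma up_ed (c : (Y.pow h).E) (b : Bool) : c.up.ed b = (c.ed b).1 := rfl
@[simp] lemma up_sd (c : (Y.pow h).E) (v : (Y.pow h).V) : c.up.sd v.1 = c.sd v := by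
  show Y.side c.i ((j c.g)⁻¹ • v.1) = Y.side c.i (j c.g⁻¹ • v.1)
  rw [map_inv]

@[simp] lemma up_smul (x : H) (c : (Y.pow h).E) : (x • c).up = j x • c.up :=
  E.ext (map_mul j _ _) rfl

lemma up_inj : Function.Injective (E.up : (Y.pow h).E → Y.E) := fun a b q =>
  E.ext (h.inj (congrArg E.g q)) (congrArg (E.i (T := Y)) q)

lemma exists_up (h : GPow d k j e) {c : Y.E} {b : Bool} (hc : (k : ℤ) ∣ Y.lev (c.ed b)) :
    ∃ c' : (Y.pow h).E, c'.up = c := by
  obtain ⟨g, hg⟩ := h.lift (g := c.g) (by rw [← lev_ed' c b]; exact hc)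
  exact ⟨⟨g, c.i⟩, E.ext hg rfl⟩

lemma up_mem_sep {u v : (Y.pow h).V} {c : (Y.pow h).E} : c.up ∈ sep u.1 v.1 ↔ c ∈ sep u v := by
  by_cases q : Y.lev u.1 = Y.lev v.1
  · rw [mem_sep q, mem_sep (pow_lev_iff.2 q), up_sd, up_sd]
  · exact ⟨fun m => (q (lev_eq_of_mem m)).elim,
      fun m => (q (pow_lev_iff.1 (lev_eq_of_mem m))).elim⟩

lemma exists_up_of_mem {u : (Y.pow h).V} {v : Y.V} {c : Y.E} (hc : c ∈ sep u.1 v) :
    ∃ c' : (Y.pow h).E, c'.up = c :=
  exists_up h (b := false) (by rw [lev_ed_of_mem hc]; exact u.2)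

lemma sep_pow (u v : (Y.pow h).V) : sep u.1 v.1 = (sep u v).image E.up := by
  ext c
  rw [Finset.mem_image]
  refine ⟨fun m => ?_, by rintro ⟨c', m, rfl⟩; exact up_mem_sep.2 m⟩
  obtain ⟨c', rfl⟩ := exists_up_of_mem m
  exact ⟨c', up_mem_sep.1 m, rfl⟩

lemma dist_pow (u v : (Y.pow h).V) : (Y.pow h).dist u v = Y.dist u.1 v.1 := by
  rw [dist, dist, sep_pow, Finset.card_image_of_injective _ up_inj]

lemma cnt_pow (u v : (Y.pow h).V) (i : Y.I) : cnt (sep u v) i = cnt (sep u.1 v.1) i := by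
  rw [sep_pow]
  unfold cnt
  rw [Finset.filter_image, Finset.card_image_of_injective _ up_inj]
  rfl

lemma btw_pow {a x b : (Y.pow h).V} : (Y.pow h).btw a x b ↔ Y.btw a.1 x.1 b.1 := by
  constructor
  · rintro ⟨h1, h2, h3⟩
    refine ⟨pow_lev_iff.1 h1, pow_lev_iff.1 h2, fun c hc => by_contra fun q => ?_⟩
    obtain ⟨c', rfl⟩ := exists_up_of_mem ((mem_sep (pow_lev_iff.1 h1).symm).2 q)
    simp only [up_sd] at hc q
    exact q (h3 c' hc)
  · rintro ⟨h1, h2, h3⟩
    refine ⟨pow_lev_iff.2 h1, pow_lev_iff.2 h2, fun c hc => ?_⟩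
    simpa only [up_sd] using h3 c.up (by simpa only [up_sd] using hc)

/-- a vertex on the level of a vertex of the restricted forest -/
def mkPow (a : (Y.pow h).V) (x : Y.V) (q : Y.lev a.1 = Y.lev x) : (Y.pow h).V := ⟨x, q ▸ a.2⟩

@[simp] lemma mkPow_val (a : (Y.pow h).V) (x : Y.V) (q : Y.lev a.1 = Y.lev x) :
    (mkPow a x q).1 = x := rfl

lemma adj_pow {a b : (Y.pow h).V} : Adj a b ↔ Adj a.1 b.1 := by
  constructor
  · rintro ⟨c, s, rfl, rfl⟩
    exact ⟨c.up, s, rfl, rfl⟩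
  · rintro ⟨c, s, h1, h2⟩
    obtain ⟨c', rfl⟩ := exists_up h (c := c) (b := s) (h1 ▸ a.2)
    exact ⟨c', s, Subtype.ext h1, Subtype.ext h2⟩

/-- a dart of the restricted forest as a dart of the forest -/
def Dir.up (a : (Y.pow h).Dir) : Y.Dir := (a.1.up, a.2)

@[simp] lemma up_fst (a : (Y.pow h).Dir) : a.up.1 = a.1.up := rfl
@[simp] lemma up_snd (a : (Y.pow h).Dir) : a.up.2 = a.2 := rfl
@[simp] lemma up_src (a : (Y.pow h).Dir) : a.up.src = a.src.1 := rfl
@[simp] lemma up_tgt (a : (Y.pow h).Dir) : a.up.tgt = a.tgt.1 := rfl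
@[simp] lemma up_rv (a : (Y.pow h).Dir) : a.rv.up = a.up.rv := rfl
@[simp] lemma up_tr (x : H) (a : (Y.pow h).Dir) : (a.tr x).up = a.up.tr (j x) :=
  Prod.ext (up_smul _ _) rfl

lemma dir_up_inj : Function.Injective (Dir.up : (Y.pow h).Dir → Y.Dir) := fun _ _ q =>
  Prod.ext (up_inj (congrArg Prod.fst q)) (congrArg (Prod.snd (α := Y.E)) q)

lemma exists_dir_up (h : GPow d k j e) {a : Y.Dir} (ha : (k : ℤ) ∣ Y.lev a.src) :
    ∃ a' : (Y.pow h).Dir, a'.up = a := by
  obtain ⟨c, hc⟩ := exists_up h ha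
  exact ⟨(c, a.2), Prod.ext hc rfl⟩

lemma mem_H_pow {a : (Y.pow h).Dir} {x : (Y.pow h).V} : x ∈ a.H ↔ x.1 ∈ a.up.H :=
  and_congr pow_lev_iff (by rw [up_fst, up_sd, up_snd])

lemma cross_pow {u v : (Y.pow h).V} {a : (Y.pow h).Dir} :
    (Y.pow h).Cross u v a ↔ Y.Cross u.1 v.1 a.up := and_congr mem_H_pow mem_H_pow

lemma first_pow {u v : (Y.pow h).V} {a : (Y.pow h).Dir} : First u v a ↔ First u.1 v.1 a.up :=
  and_congr ⟨fun q => congrArg Subtype.val q, fun q => Subtype.ext q⟩ up_mem_sep.symm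

lemma ell_pow_subset : (Y.pow h).Ell ⊆ j ⁻¹' Y.Ell := fun _ ⟨a, ha⟩ =>
  ⟨a.1, congrArg Subtype.val ha⟩

/-- elliptic elements of the restriction, when every level can be mapped to level zero -/
lemma ell_pow (hY : ∀ n, Nonempty (Hom Y Y n)) : (Y.pow h).Ell = j ⁻¹' Y.Ell := by
  refine ell_pow_subset.antisymm fun x ⟨a, ha⟩ => ?_
  obtain ⟨f⟩ := hY (- Y.lev a)
  refine ⟨⟨f a, by rw [f.lev_map]; simp⟩, Subtype.ext ?_⟩
  show j x • f a = f a
  rw [← f.map_smul, ha]

namespace Hom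

variable {r : ℤ}

lemma ell_subset (f : Hom Y Z r) : Y.Ell ⊆ Z.Ell := fun x ⟨a, ha⟩ =>
  ⟨f a, by rw [← f.map_smul, ha]⟩

/-- change of the name of the shift -/
def cast (f : Hom Y Z r) {m : ℤ} (q : m = r) : Hom Y Z m :=
  ⟨f.toFun, f.map_smul, fun v => by rw [f.lev_map, q]⟩

@[simp] lemma cast_apply (f : Hom Y Z r) {m : ℤ} (q : m = r) (v : Y.V) : f.cast q v = f v := rfl

lemma iterate_smul (f : Hom Y Y r) (n : ℕ) (g : G) (v : Y.V) :
    f.toFun^[n] (g • v) = g • f.toFun^[n] v := by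
  induction n with
  | zero => rfl
  | succ n ih => rw [Function.iterate_succ_apply', Function.iterate_succ_apply', ih, f.map_smul]

lemma lev_iterate (f : Hom Y Y r) (n : ℕ) (v : Y.V) :
    Y.lev (f.toFun^[n] v) = Y.lev v + n * r := by
  induction n with
  | zero => simp
  | succ n ih => rw [Function.iterate_succ_apply', f.lev_map, ih]; push_cast; ring

/-- iterates of a self map, with any name `m` for the shift -/
def itr (f : Hom Y Y r) (n : ℕ) {m : ℤ} (q : m = n * r) : Hom Y Y m :=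
  ⟨f.toFun^[n], f.iterate_smul n, fun v => by rw [f.lev_iterate, q]⟩

@[simp] lemma itr_apply (f : Hom Y Y r) (n : ℕ) {m : ℤ} (q : m = n * r) (v : Y.V) :
    f.itr n q v = f.toFun^[n] v := rfl

/-- restriction of a map whose shift is a multiple of `k` -/
def pow (f : Hom Y Z r) (h : GPow d k j e) {m : ℤ} (q : (k : ℤ) ∣ r) (q' : m = r / k) :
    Hom (Y.pow h) (Z.pow h) m where
  toFun v := ⟨f v.1, by rw [f.lev_map]; exact dvd_add v.2 q⟩
  map_smul x v := Subtype.ext (f.map_smul _ _)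
  lev_map v := by
    show Z.lev (f v.1) / k = Y.lev v.1 / k + m
    rw [f.lev_map, Int.add_ediv_of_dvd_left v.2, q']

@[simp] lemma pow_apply (f : Hom Y Z r) (h : GPow d k j e) {m : ℤ} (q : (k : ℤ) ∣ r)
    (q' : m = r / k) (v : (Y.pow h).V) : (f.pow h q q' v).1 = f v.1 := rfl

lemma img_pow (f : Hom Y Z r) (h : GPow d k j e) {m : ℤ} (q : (k : ℤ) ∣ r)
    (q' : m = r / k) (c : (Y.pow h).E) : f.img c.up = ((f.pow h q q').img c).image E.up :=
  sep_pow (f.pow h q q' (c.ed false)) (f.pow h q q' (c.ed true))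

lemma mat_pow (f : Hom Y Z r) (h : GPow d k j e) {m : ℤ} (q : (k : ℤ) ∣ r)
    (q' : m = r / k) (a : Z.I) (i : Y.I) : (f.pow h q q').mat a i = f.mat a i :=
  (cnt_pow (h := h) _ _ a).trans (f.cnt_img (E.up (h := h) ⟨1, i⟩) a)

end Hom

lemma hom_all (f : Hom Y Y 1) (g : Hom Y Y (-1)) (n : ℤ) : Nonempty (Hom Y Y n) := by
  rcases Int.eq_nat_or_neg n with ⟨n, rfl | rfl⟩
  · exact ⟨f.itr n (by simp)⟩
  · exact ⟨g.itr n (by simp)⟩

/-- the same forest with the level function reversed -/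
@[implicit_reducible] def flip (Y : Forest d) (hd : ∀ g, dg d' g = - dg d g) : Forest d' where
  V := Y.V
  I := Y.I
  en := Y.en
  lev v := - Y.lev v
  lev_smul g v := by
    show - Y.lev (g • v) = dg d' g + - Y.lev v
    rw [lev_smul_dg, hd]; ring
  lev_en i b := by rw [Y.lev_en, neg_zero]
  side := Y.side
  side_en := Y.side_en
  cross := Y.cross
  conn u v q := Y.conn u v (neg_injective q)

variable {hd : ∀ g, dg d' g = - dg d g}

/-- an edge of the reversed forest as an edge of the forest -/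
def flipE : (Y.flip hd).E ≃ Y.E := ⟨fun c => ⟨c.g, c.i⟩, fun c => ⟨c.g, c.i⟩, fun _ => rfl,
  fun _ => rfl⟩

@[simp] lemma flipE_i (c : (Y.flip hd).E) : (flipE c).i = c.i := rfl
@[simp] lemma flipE_ed (c : (Y.flip hd).E) (b : Bool) : (flipE c).ed b = c.ed b := rfl
@[simp] lemma flipE_sd (c : (Y.flip hd).E) (v : Y.V) : (flipE c).sd v = c.sd v := rfl
@[simp] lemma flipE_smul (g : G) (c : (Y.flip hd).E) : flipE (g • c) = g • flipE c := rfl

lemma flip_lev (v : Y.V) : (Y.flip hd).lev v = - Y.lev v := rfl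

lemma flip_lev_iff {u v : Y.V} : (Y.flip hd).lev u = (Y.flip hd).lev v ↔ Y.lev u = Y.lev v :=
  neg_inj

lemma flipE_mem_sep {u v : Y.V} {c : (Y.flip hd).E} :
    flipE c ∈ sep u v ↔ c ∈ sep (T := Y.flip hd) u v := by
  by_cases q : Y.lev u = Y.lev v
  · rw [mem_sep q, mem_sep (T := Y.flip hd) (flip_lev_iff.2 q)]; rfl
  · exact ⟨fun m => (q (lev_eq_of_mem m)).elim,
      fun m => (q (flip_lev_iff.1 (lev_eq_of_mem (T := Y.flip hd) m))).elim⟩

lemma sep_flip (u v : Y.V) : sep u v = (sep (T := Y.flip hd) u v).image flipE := by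
  ext c
  rw [Finset.mem_image]
  exact ⟨fun m => ⟨flipE.symm c, flipE_mem_sep.1 m, rfl⟩,
    by rintro ⟨c', m, rfl⟩; exact flipE_mem_sep.2 m⟩

lemma dist_flip (u v : Y.V) : (Y.flip hd).dist u v = Y.dist u v := by
  unfold dist
  rw [sep_flip (hd := hd) u v, Finset.card_image_of_injective _ flipE.injective]

lemma cnt_flip (u v : Y.V) (i : Y.I) : cnt (sep (T := Y.flip hd) u v) i = cnt (sep u v) i := by
  rw [sep_flip (hd := hd)]
  unfold cnt
  rw [Finset.filter_image, Finset.card_image_of_injective _ flipE.injective]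
  rfl

lemma btw_flip {a x b : Y.V} : (Y.flip hd).btw a x b ↔ Y.btw a x b :=
  and_congr flip_lev_iff (and_congr flip_lev_iff
    ⟨fun q c => q (flipE.symm c), fun q c => q (flipE c)⟩)

lemma adj_flip {a b : Y.V} : Adj (T := Y.flip hd) a b ↔ Adj a b :=
  ⟨fun ⟨c, s, q⟩ => ⟨flipE c, s, q⟩, fun ⟨c, s, q⟩ => ⟨flipE.symm c, s, q⟩⟩

/-- a dart of the reversed forest as a dart of the forest -/
def flipD : (Y.flip hd).Dir ≃ Y.Dir := flipE.prodCongr (Equiv.refl _)

@[simp] lemma flipD_fst (a : (Y.flip hd).Dir) : (flipD a).1 = flipE a.1 := rfl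
@[simp] lemma flipD_snd (a : (Y.flip hd).Dir) : (flipD a).2 = a.2 := rfl
@[simp] lemma flipD_src (a : (Y.flip hd).Dir) : (flipD a).src = a.src := rfl
@[simp] lemma flipD_tgt (a : (Y.flip hd).Dir) : (flipD a).tgt = a.tgt := rfl
@[simp] lemma flipD_rv (a : (Y.flip hd).Dir) : flipD a.rv = (flipD a).rv := rfl
@[simp] lemma flipD_tr (g : G) (a : (Y.flip hd).Dir) : flipD (a.tr g) = (flipD a).tr g := rfl

lemma mem_H_flip {a : (Y.flip hd).Dir} {x : Y.V} : x ∈ a.H ↔ x ∈ (flipD a).H :=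
  and_congr flip_lev_iff Iff.rfl

lemma cross_flip {u v : Y.V} {a : (Y.flip hd).Dir} :
    (Y.flip hd).Cross u v a ↔ Y.Cross u v (flipD a) := and_congr mem_H_flip mem_H_flip

lemma ell_flip : (Y.flip hd).Ell = Y.Ell := rfl

/-- a map between reversed forests -/
def Hom.flip {r : ℤ} (f : Hom Y Z r) (hd : ∀ g, dg d' g = - dg d g) {m : ℤ} (q : m = - r) :
    Hom (Y.flip hd) (Z.flip hd) m :=
  ⟨f.toFun, f.map_smul, fun (v : Y.V) => by
    show - Z.lev (f v) = - Y.lev v + m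
    rw [f.lev_map, q]; ring⟩

@[simp] lemma Hom.flip_apply {r : ℤ} (f : Hom Y Z r) (hd : ∀ g, dg d' g = - dg d g) {m : ℤ}
    (q : m = - r) (v : Y.V) : f.flip hd q v = f v := rfl

end Forest

namespace Flow

variable {Y : Forest d} (s : Flow Y)

include s in
lemma hom_all (n : ℤ) : Nonempty (Hom Y Y n) :=
  let ⟨g⟩ := s.rev; Forest.hom_all s.f g n

/-- the `k`-th power of a flow -/
def pow (h : GPow d k j e) (hk : 0 < k) : Flow (Y.pow h) where
  f := (s.f.itr k (m := k) (by simp)).pow h dvd_rfl (Int.ediv_self (by omega)).symm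
  rev := let ⟨g⟩ := s.hom_all (-k)
    ⟨g.pow h (dvd_neg.2 dvd_rfl) (by
      rw [Int.neg_ediv_of_dvd dvd_rfl, Int.ediv_self (by omega)])⟩

variable {h : GPow d k j e} {hk : 0 < k}

@[simp] lemma pow_σ (v : (Y.pow h).V) : ((s.pow h hk).σ v).1 = s.σ^[k] v.1 := rfl

@[simp] lemma pow_iterate (n : ℕ) (v : (Y.pow h).V) :
    ((s.pow h hk).σ^[n] v).1 = s.σ^[k * n] v.1 := by
  induction n with
  | zero => rfl
  | succ n ih =>
    rw [Function.iterate_succ_apply', pow_σ, ih, ← Function.iterate_add_apply, Nat.mul_succ,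
      add_comm]

include s in
lemma ell_pow (h : GPow d k j e) : (Y.pow h).Ell = j ⁻¹' Y.Ell := Forest.ell_pow s.hom_all

lemma legal_pow_iff {x y z : (Y.pow h).V} : (s.pow h hk).Legal x y z ↔
    ∀ n, Y.btw (s.σ^[k * n] x.1) (s.σ^[k * n] y.1) (s.σ^[k * n] z.1) :=
  forall_congr' fun n => by rw [btw_pow, pow_iterate, pow_iterate, pow_iterate]

variable {s}

lemma Legal.pow {x y z : (Y.pow h).V} (q : s.Legal x.1 y.1 z.1) : (s.pow h hk).Legal x y z :=
  s.legal_pow_iff.2 fun _ => q _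

lemma LegalP.pow {a b : (Y.pow h).V} (q : s.LegalP a.1 b.1) : (s.pow h hk).LegalP a b :=
  ⟨pow_lev_iff.2 q.1, fun _ _ _ h1 h2 h3 h4 => Legal.pow
    (q.2 _ _ _ (btw_pow.1 h1) (btw_pow.1 h2) (btw_pow.1 h3) (btw_pow.1 h4))⟩

lemma desc_pow {n : ℕ} {a b : (Y.pow h).Dir} :
    (s.pow h hk).Desc n a b ↔ s.Desc (k * n) a.up b.up := by
  rw [Desc, cross_pow, pow_iterate, pow_iterate]; rfl

lemma idesc_pow {n : ℕ} {a b : (Y.pow h).Dir} :
    (s.pow h hk).IDesc n a b ↔ s.IDesc (k * n) a.up b.up := by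
  refine and_congr desc_pow (and_congr (not_congr ?_) (not_congr ?_))
  · rw [up_src, up_src, ← s.pow_iterate (hk := hk)]; exact Subtype.ext_iff
  · rw [up_tgt, up_tgt, ← s.pow_iterate (hk := hk)]; exact Subtype.ext_iff

end Flow

/-- restriction of an equivariant map -/
def EMap.pow {Y : Forest d} {Z : Forest d'} (m : EMap Y Z) (h : GPow d k j e)
    (h' : GPow d' k j e') (q : ∀ a, (k : ℤ) ∣ Y.lev a → (k : ℤ) ∣ Z.lev (m.f a)) :
    EMap (Y.pow h) (Z.pow h') where
  f a := ⟨m.f a.1, q _ a.2⟩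
  smul _ _ := Subtype.ext (m.smul _ _)
  lev a b := by rw [pow_lev_iff, pow_lev_iff]; exact m.lev _ _

@[simp] lemma EMap.pow_f {Y : Forest d} {Z : Forest d'} (m : EMap Y Z) (h : GPow d k j e)
    (h' : GPow d' k j e') (q : ∀ a, (k : ℤ) ∣ Y.lev a → (k : ℤ) ∣ Z.lev (m.f a))
    (a : (Y.pow h).V) : ((m.pow h h' q).f a).1 = m.f a.1 := rfl

lemma EMap.ell_subset {Y : Forest d} {Z : Forest d'} (m : EMap Y Z) : Y.Ell ⊆ Z.Ell :=
  fun x ⟨a, ha⟩ => ⟨m.f a, by rw [← m.smul, ha]⟩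

/-- the `k`-th power of a pair -/
@[implicit_reducible] def Pair.pow (X : Pair d d') (h : GPow d k j e) (hk : 0 < k) : Pair e e⁻¹ where
  neg _ := rfl
  P := X.P.pow h
  M := X.M.pow (h.neg X.neg)
  s := X.s.pow h hk
  t := X.t.pow (h.neg X.neg) hk
  h := X.h.pow (h.neg X.neg) h fun a q => by rw [X.lev_h]; exact dvd_neg.2 q
  h' := X.h'.pow h (h.neg X.neg) fun a q => by rw [X.lev_h']; exact dvd_neg.2 q
  lev_h a := by
    show X.P.lev (X.h.f a.1) / k = - (X.M.lev a.1 / k)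
    rw [X.lev_h, Int.neg_ediv_of_dvd a.2]
  lev_h' a := by
    show X.M.lev (X.h'.f a.1) / k = - (X.P.lev a.1 / k)
    rw [X.lev_h', Int.neg_ediv_of_dvd a.2]

lemma Pair.pow_P (X : Pair d d') (h : GPow d k j e) (hk : 0 < k) :
    (X.pow h hk).P = X.P.pow h := rfl
lemma Pair.pow_M (X : Pair d d') (h : GPow d k j e) (hk : 0 < k) :
    (X.pow h hk).M = X.M.pow (h.neg X.neg) := rfl
lemma Pair.pow_s (X : Pair d d') (h : GPow d k j e) (hk : 0 < k) :
    (X.pow h hk).s = X.s.pow h hk := rfl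
lemma Pair.pow_t (X : Pair d d') (h : GPow d k j e) (hk : 0 < k) :
    (X.pow h hk).t = X.t.pow (h.neg X.neg) hk := rfl

lemma Pair.max_pow (X : Pair d d') (hM : MAX d X.P.Ell) (h : GPow d k j e) (hk : 0 < k) :
    MAX e (X.pow h hk).P.Ell := by
  show MAX e (X.P.pow h).Ell
  rw [X.s.ell_pow h]
  exact hM.pow h hk

/-- A pair from two forests over the same degree, with flows in opposite directions. -/
@[implicit_reducible] def Pair.ofHom {P M : Forest d} (hd : ∀ g, dg d' g = - dg d g) (f : Hom P P 1)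
    (f' : Nonempty (Hom P P (-1))) (g : Hom M M (-1)) (g' : Nonempty (Hom M M 1))
    (a : Hom M P 0) (b : Hom P M 0) : Pair d d' where
  neg := hd
  P := P
  M := M.flip hd
  s := ⟨f, f'⟩
  t := ⟨g.flip hd (by simp), let ⟨x⟩ := g'; ⟨x.flip hd rfl⟩⟩
  h := ⟨a.toFun, a.map_smul, fun u v => by
    rw [flip_lev_iff, a.lev_map, a.lev_map, add_zero, add_zero]⟩
  h' := ⟨b.toFun, b.map_smul, fun u v => by
    rw [flip_lev_iff, b.lev_map, b.lev_map, add_zero, add_zero]⟩
  lev_h v := by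
    show P.lev (a v) = - - M.lev v
    rw [a.lev_map, add_zero, neg_neg]
  lev_h' v := by
    show - M.lev (b v) = - P.lev v
    rw [b.lev_map, add_zero]

end Pool.Agent.Lib.FBC
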