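import Pool.Agent.Lib.FBC.X1.Prim
import Pool.Agent.Lib.FBC.X1.Pow

set_option autoImplicit false
set_option linter.unusedVariables false

/-!
A train track map without long edges gives an invariant one-edge splitting.
-/

namespace Pool.Agent.Lib.FBC

open Forest Hom

variable {G H : Type} [Group G] [Group H] {d : Dg G} {e : Dg H} {j : H →* G} {m : ℕ}

/-- The graph of level zero. -/
def Forest.graph0 (Y : Forest d) : SimpleGraph {v : Y.V // Y.lev v = 0} where
  Adj u v := Adj u.1 v.1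
  symm := ⟨fun _ _ ⟨c, b, h1, h2⟩ => ⟨c, !b, h2, by rw [Bool.not_not]; exact h1⟩⟩
  loopless := ⟨fun _ ⟨c, b, h1, h2⟩ => ed_ne c b (h1.symm.trans h2)⟩

lemma Forest.graph0_isTree (Y : Forest d) (x : Y.V) (hx : Y.lev x = 0) : Y.graph0.IsTree := by
  have : Nonempty {v : Y.V // Y.lev v = 0} := ⟨⟨x, hx⟩⟩
  refine ⟨⟨fun u ⟨v, hv⟩ => ?_⟩, SimpleGraph.isAcyclic_iff_forall_adj_isBridge.2 ?_⟩
  · have h := conn' (u.2.trans hv.symm)
    induction h with
    | refl => rfl
    | @tail y z _ hyz ih =>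
      have hy : Y.lev y = 0 := by
        obtain ⟨c, b, rfl, rfl⟩ := hyz
        exact (lev_ed_eq _ _ _).trans hv
      exact (ih hy).trans (SimpleGraph.Adj.reachable (G := Y.graph0) (u := ⟨y, hy⟩) (v := ⟨z, hv⟩) hyz)
  · rintro u v ⟨c, b, h1, h2⟩
    rw [SimpleGraph.isBridge_iff, SimpleGraph.reachable_iff_reflTransGen]
    intro h
    have : ∀ w, Relation.ReflTransGen (Y.graph0.deleteEdges {s(u, v)}).Adj u w →
        c.sd w.1 = c.sd u.1 := fun w h => by
      induction h with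
      | refl => rfl
      | @tail y z _ hyz ih =>
        rw [SimpleGraph.deleteEdges_adj] at hyz
        obtain ⟨⟨c', b', h3, h4⟩, h5⟩ := hyz
        rw [← ih, h3, h4]
        refine sd_ed_ne ?_ _ _
        rintro rfl
        refine h5 ?_
        rw [Set.mem_singleton_iff, Sym2.eq_iff]
        rcases eq_or_ne b' b with rfl | e
        · exact Or.inl ⟨Subtype.ext (h3.trans h1.symm), Subtype.ext (h4.trans h2.symm)⟩
        · obtain rfl : b' = !b := Bool.eq_not_iff.2 e
          exact Or.inr ⟨Subtype.ext (h3.trans h2.symm), Subtype.ext (by simpa [h4] using h1.symm)⟩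
    have := this v h
    rw [h1, h2] at this
    simp at this

lemma edge_eq_of_ends {Y : Forest d} {c c' : Y.E} {b b' : Bool} (h1 : c.ed b = c'.ed b')
    (h2 : c.ed (!b) = c'.ed (!b')) : c = c' ∧ b = b' := by
  have := sep_ed c b
  rw [h1, h2, sep_ed, Finset.singleton_inj] at this
  subst this
  exact ⟨rfl, by simpa using congrArg c'.sd h1⟩

lemma dtree_core (Y : Forest d) (i0 : Y.I) (hI : ∀ i, i = i0) (hE : Y.Ess) (Φ : Equiv.Perm Y.V)
    (γ : G) (hs : ∀ (g : G) v, Φ (g • v) = g • Φ v) (hΦ : ∀ b, Φ (Y.en i0 b) = γ • Y.en i0 b)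
    (hγ : dg d γ = m) (hm : 0 < m) (h : GPow d m j e) : DTree e := by
  have com : ∀ (n : ℤ) (g : G) v, (Φ ^ n) (g • v) = g • (Φ ^ n) v := fun n g v => by
    have : Commute Φ (MulAction.toPerm g) := Equiv.ext fun v => hs g v
    exact congrArg (fun p : Equiv.Perm Y.V => p v) (this.zpow_left n).eq
  have en : ∀ (n : ℤ) b, (Φ ^ n) (Y.en i0 b) = γ ^ n • Y.en i0 b := fun n b => by
    induction n using Int.induction_on with
    | zero => simp
    | succ n ih => rw [zpow_add_one, Equiv.Perm.mul_apply, hΦ, com, ih, ← mul_smul, ← zpow_one_add,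
        add_comm]
    | pred n ih =>
      have : Φ⁻¹ (Y.en i0 b) = γ⁻¹ • Y.en i0 b := by
        rw [Equiv.Perm.inv_eq_iff_eq, hs, hΦ, inv_smul_smul]
      rw [zpow_sub_one, Equiv.Perm.mul_apply, this, com, ih, ← mul_smul, ← zpow_neg_one,
        ← zpow_add, sub_eq_neg_add]
  have ed : ∀ (x : H) (c : Y.E) b, (Φ ^ (-dg e x)) (j x • c.ed b) =
      (⟨j x * c.g * γ ^ (-dg e x), i0⟩ : Y.E).ed b := fun x c b => by
    rw [E.ed, E.ed, hI c.i, com, com, en, mul_smul, mul_smul]
  let act : MulAction H {v : Y.V // Y.lev v = 0} :=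
    { smul := fun x v => ⟨(Φ ^ (-dg e x)) (j x • v.1), by
        obtain ⟨v, hv⟩ := v
        obtain ⟨c, rfl⟩ := hE.exists_dir v
        have hv' : dg d c.1.g = 0 := (lev_ed c.1 c.2).symm.trans hv
        refine (congrArg Y.lev (ed x c.1 c.2)).trans ((lev_ed _ _).trans ?_)
        show dg d (j x * c.1.g * γ ^ (-dg e x)) = 0
        rw [dg_mul, dg_mul, dg_zpow, hγ, h.mul, hv']; ring⟩
      one_smul := fun v => Subtype.ext (show (Φ ^ (-dg e 1)) (j 1 • v.1) = v.1 by simp [dg])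
      mul_smul := fun x y v => Subtype.ext (show (Φ ^ (-dg e (x * y))) (j (x * y) • v.1) =
          (Φ ^ (-dg e x)) (j x • (Φ ^ (-dg e y)) (j y • v.1)) by
        rw [← com, ← Equiv.Perm.mul_apply, ← zpow_add, map_mul j, mul_smul, dg_mul, neg_add]) }
  have val : ∀ (x : H) (v : {v : Y.V // Y.lev v = 0}), (x • v).1 = (Φ ^ (-dg e x)) (j x • v.1) :=
    fun _ _ => rfl
  have ker : ∀ x ∈ e.ker, ∀ v : {v : Y.V // Y.lev v = 0}, (x • v).1 = j x • v.1 := fun x hx v => by
    rw [val, mem_ker_dg.1 hx]; simp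
  set c0 : Y.E := ⟨1, i0⟩
  have l0 : ∀ b, Y.lev (c0.ed b) = 0 := fun b => by simp [lev_ed, c0]
  refine ⟨@GTree.mk H _ _ act Y.graph0 (Y.graph0_isTree _ (l0 false)) ?_, ⟨_, l0 false⟩,
    ⟨_, l0 true⟩, ⟨c0, false, rfl, rfl⟩, ?_, ?_, ?_, ?_, ?_⟩
  · rintro x a b ⟨c, β, h1, h2⟩
    exact ⟨_, β, by rw [val, h1, ed], by rw [val, h2, ed]⟩
  · rintro x hx a b ⟨c, β, h1, h2⟩ h3 h4
    have h5 := (ker x hx a).symm.trans (congrArg Subtype.val h3)
    have h6 := (ker x hx b).symm.trans (congrArg Subtype.val h4)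
    rw [h1, ← ed_smul] at h5
    rw [h2, ← ed_smul] at h6
    exact h.inj ((smul_eq_self (edge_eq_of_ends h5 h6).1).trans (map_one j).symm)
  · rintro a b ⟨c, β, h1, h2⟩
    obtain ⟨x, hx, hj⟩ := h.lift_ker (g := c.g⁻¹) (inv_mem (by
      have := a.2
      rwa [h1, lev_ed] at this))
    have ec : j x • c = c0 := E.ext (by simp [hj, c0]) (hI _)
    have h3 : (x • a).1 = c0.ed β := by rw [ker x hx, h1, ← ed_smul, ec]
    have h4 : (x • b).1 = c0.ed (!β) := by rw [ker x hx, h2, ← ed_smul, ec]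
    refine ⟨x, hx, ?_⟩
    cases β
    · exact Or.inl ⟨Subtype.ext h3, Subtype.ext h4⟩
    · exact Or.inr ⟨Subtype.ext h3, Subtype.ext h4⟩
  · intro x h1 h2
    have h3 := (ed x c0 false).symm.trans (congrArg Subtype.val h1)
    have h4 := (ed x c0 true).symm.trans (congrArg Subtype.val h2)
    simpa using (edge_eq_of_ends (b := false) (b' := true) h3 h4).2
  · obtain ⟨t, ht⟩ := h.lift (g := γ) (by rw [hγ])
    have h1 : dg e t = 1 := by rw [h.deg, ht, hγ, Int.ediv_self (by omega)]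
    have h2 : ∀ b, (Φ ^ (-dg e t)) (j t • c0.ed b) = c0.ed b := fun b => by
      rw [ed, h1, ht]; simp [c0]
    exact ⟨t, h1, Subtype.ext (h2 false), Subtype.ext (h2 true)⟩
  · intro a
    obtain ⟨g, h1, h2⟩ := hE.2 a.1
    obtain ⟨x, hx, rfl⟩ := h.lift_ker (g := g) h1
    exact ⟨x, hx, fun e => h2 ((ker x hx a).symm.trans (congrArg Subtype.val e))⟩

lemma dtree_of_hom (Y : Forest d) (i0 : Y.I) (hI : ∀ i, i = i0) (hE : Y.Ess) {r : ℤ}
    (F : Hom Y Y r) (γ : G) (hF : ∀ b, F (Y.en i0 b) = γ • Y.en i0 b) (hr : r = m ∨ r = -m)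
    (hm : 0 < m) (h : GPow d m j e) : DTree e := by
  have ed : ∀ (c : Y.E) b, F (c.ed b) = (⟨c.g * γ, i0⟩ : Y.E).ed b := fun c b => by
    rw [E.ed, E.ed, hI c.i, F.map_smul, hF, mul_smul]
  have im : ∀ c : Y.E, F.img c = {⟨c.g * γ, i0⟩} := fun c => by
    rw [img, ed, ed]; exact sep_ed _ false
  have bij : Function.Bijective F.toFun := by
    refine ⟨fun u v huv => ?_, fun v => ?_⟩
    · have l : Y.lev u = Y.lev v := by
        have := congrArg Y.lev huv
        rw [F.lev_map, F.lev_map] at this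
        omega
      have nc : F.NoCancel u v := fun a _ b _ hab => by
        rw [im, im, Finset.disjoint_singleton]
        exact fun e => hab (E.ext (mul_right_cancel (E.mk.inj e).1) ((hI _).trans (hI _).symm))
      refine eq_of_sep l (Finset.eq_empty_of_forall_notMem fun c hc => ?_)
      have := nc.img_subset hc (by rw [im]; exact Finset.mem_singleton_self _)
      simp [huv] at this
    · obtain ⟨c, rfl⟩ := hE.exists_dir v
      refine ⟨(⟨c.1.g * γ⁻¹, i0⟩ : Y.E).ed c.2, ?_⟩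
      rw [ed, Dir.src, inv_mul_cancel_right, ← hI c.1.i]
  have hγ : dg d γ = r := by
    have := congrArg Y.lev (hF false)
    rw [F.lev_map, Y.lev_smul, Y.lev_en] at this
    simpa using this.symm
  rcases hr with rfl | rfl
  · exact dtree_core Y i0 hI hE (Equiv.ofBijective _ bij) γ F.map_smul hF hγ hm h
  · refine dtree_core Y i0 hI hE (Equiv.ofBijective _ bij).symm γ⁻¹ (fun g v => ?_) (fun b => ?_)
      (by rw [dg_inv, hγ, neg_neg]) hm h
    · rw [Equiv.symm_apply_eq, Equiv.ofBijective_apply, F.map_smul]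
      exact congrArg _ ((Equiv.ofBijective _ bij).apply_symm_apply v).symm
    · rw [Equiv.symm_apply_eq, Equiv.ofBijective_apply, F.map_smul, hF, inv_smul_smul]

lemma ends_of_sep {Y : Forest d} {u v : Y.V} {c : Y.E} (h : sep u v = {c}) :
    ∃ b, u = c.ed b ∧ v = c.ed (!b) := by
  have hc : c ∈ sep u v := by simp [h]
  obtain ⟨a, ha⟩ := exists_First (lev_eq_of_mem hc) (by rintro rfl; simp at hc)
  have h1 := ha.sep_tgt
  obtain rfl : a.1 = c := by simpa [h] using ha.2
  rw [h, Finset.erase_singleton] at h1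
  exact ⟨a.2, ha.1.symm, (eq_of_sep ((lev_src_tgt a).symm.trans
    (ha.1 ▸ lev_eq_of_mem hc)) h1).symm⟩

/-- Without long edges some power preserves a one-edge splitting. -/
theorem perm_dtree {T : Forest d} {k : ℤ} (hk : k = 1 ∨ k = -1) {f : Hom T T k} (hT : f.TT)
    (hI : Irr f.mat) (hE : T.Ess) (hL : T.Leafless) (hs : ∀ c, ¬ Long f c) :
    ∃ m : ℕ, 0 < m ∧ ∀ (H : Type) [Group H] (j : H →* G) (e : Dg H), GPow d m j e → DTree e := by
  obtain ⟨i0⟩ := hE.nonempty_I
  have one : ∀ n c, ((f.itn n).img c).card = 1 := fun n => by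
    induction n with
    | zero => simp [img_iter_zero]
    | succ n ih =>
      intro c
      obtain ⟨a, ha⟩ := Finset.card_eq_one.1 (ih c)
      rw [hT.card_add, ha, Finset.sum_singleton]
      exact le_antisymm (Nat.le_of_lt_succ (not_le.1 (hs a))) (hT.nonempty_iter 1 a).card_pos
  have row : ∀ n j, ∃ i, Rn f n i j := fun n => by
    induction n with
    | zero => exact fun j => ⟨j, rn_zero j⟩
    | succ n ih =>
      intro j
      obtain ⟨l, hl⟩ := hI.exists_row j
      obtain ⟨i, hi⟩ := ih l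
      exact ⟨i, hT.rn_add (m := 1) hi hl⟩
  have inj : ∀ n i i' j, Rn f n i j → Rn f n i' j → i = i' := fun n => by
    choose φ hφ using fun i : T.I => Finset.card_eq_one.1 (one n ⟨1, i⟩)
    have key : ∀ i j, Rn f n i j → (φ i).i = j := fun i j h => by
      obtain ⟨a, h1, h2⟩ := Rn.ex ⟨1, i⟩ h
      rw [hφ, Finset.mem_singleton] at h1
      rw [← h1, h2]
    have : Function.Injective fun i => (φ i).i := Finite.injective_iff_surjective.2 fun j =>
      let ⟨i, hi⟩ := row n j; ⟨i, key i j hi⟩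
    exact fun i i' j h h' => this ((key _ _ h).trans (key _ _ h').symm)
  obtain ⟨a, h0, ha⟩ := hT.rn_of_irr hI i0 i0
  obtain ⟨⟨γ, i⟩, h1, rfl : i = i0⟩ := Rn.ex ⟨1, i0⟩ ha
  obtain ⟨β, h2, h3⟩ := ends_of_sep (Finset.eq_singleton_iff_unique_mem.2
    ⟨h1, fun x hx => Finset.card_le_one.1 (one a _).le _ hx _ h1⟩)
  simp only [E.ed, one_smul] at h2 h3
  have h4 : ∀ b, f.itn (a + a) (T.en i b) = (γ * γ) • T.en i b := fun b => by
    cases β <;> cases b <;>
      simp only [iter_add, h2, h3, Hom.map_smul, mul_smul, Bool.not_false, Bool.not_true]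
  refine ⟨a + a, by omega, fun H _ j e h => ?_⟩
  set Z : T.I → Prop := fun l => l ≠ i
  refine dtree_of_hom (coll Z) ⟨i, not_not.2 rfl⟩ (fun l => Subtype.ext (not_not.1 l.2))
    (hE.coll Z hL (not_not.2 rfl))
    (desc Z ((cq Z).comp (f.itn (a + a)) (add_zero _).symm) fun c hc => (cq_eq Z).2
      ⟨(f.itn _).lev_eq (lev_ed_eq _ _ _), fun c' hc' e => hc
        (inj _ _ _ _ (e ▸ (f.itn (a + a)).mat_pos hc') (hT.rn_add ha ha))⟩)
    (γ * γ) (fun b => congrArg (cq Z) (h4 b)) ?_ (by omega) h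
  rcases hk with rfl | rfl <;> simp

end Pool.Agent.Lib.FBC
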