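import Pool.Agent.Lib.FBC.T01
import Pool.Agent.Lib.FBC.Defs

set_option autoImplicit false
set_option linter.unusedVariables false

/-!
Iterates of train track maps; growth; primitivity.
-/

namespace Pool.Agent.Lib.FBC.Forest

open Hom

variable {G : Type} [Group G] {deg : G →* Multiplicative ℤ} {T : Forest deg} {k : ℤ}

/-- Iterates of a self map. -/
def Hom.itn (f : Hom T T k) (n : ℕ) : Hom T T (n * k) where
  toFun := f.toFun^[n]
  map_smul g v := by
    induction n with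
    | zero => rfl
    | succ n ih => rw [Function.iterate_succ_apply', Function.iterate_succ_apply', ih, f.map_smul]
  lev_map v := by
    induction n with
    | zero => simp
    | succ n ih => rw [Function.iterate_succ_apply', f.lev_map, ih]; push_cast; ring

variable {f : Hom T T k}

lemma iter_apply (n : ℕ) (v : T.V) : f.itn n v = f.toFun^[n] v := rfl

lemma iter_succ (n : ℕ) (v : T.V) : f.itn (n + 1) v = f (f.itn n v) :=
  Function.iterate_succ_apply' _ _ _

lemma iter_add (n m : ℕ) (v : T.V) : f.itn (n + m) v = f.itn m (f.itn n v) := by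
  simp only [iter_apply, add_comm n m, Function.iterate_add_apply]

lemma img_iter_zero (c : T.E) : (f.itn 0).img c = {c} := sep_ed c false

lemma img_iter_one (c : T.E) : (f.itn 1).img c = f.img c := rfl

lemma legal_ed (f : Hom T T k) (c : T.E) (b : Bool) : f.Legal (c.ed b) (c.ed (!b)) := by
  rintro ⟨a, β⟩ ⟨a', β'⟩ h h1 h2
  rw [sep_ed, Finset.mem_singleton] at h1 h2
  obtain rfl : a = c := h1
  obtain rfl : a' = a := h2
  refine (h.1 (Prod.ext rfl ?_)).elim
  simpa [Dir.src] using congrArg a'.sd h.2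

lemma Hom.Legal.mono {u v u' v' : T.V} (h : f.Legal u v) (e : sep u' v' ⊆ sep u v) :
    f.Legal u' v' := fun a b t h1 h2 => h a b t (e h1) (e h2)

lemma Hom.TT.iter (H : f.TT) {u v : T.V} (e : T.lev u = T.lev v) (h : f.Legal u v) (n : ℕ) :
    f.Legal (f.itn n u) (f.itn n v) ∧ (f.itn n).NoCancel u v := by
  induction n with
  | zero =>
    exact ⟨h, fun a _ b _ hab => by simpa [img_iter_zero] using hab⟩
  | succ n ih =>
    obtain ⟨h1, h2⟩ := TURN3_holds _ _ _ _ f _ _ H ((f.itn n).lev_eq e) ih.1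
    refine ⟨by rwa [iter_succ, iter_succ], fun a ha b hb hab => ?_⟩
    have sub : ∀ a, (f.itn (n + 1)).img a ⊆ ((f.itn n).img a).biUnion f.img := fun a => by
      rw [img, iter_succ, iter_succ]
      exact f.sep_subset ((f.itn n).lev_eq (lev_ed_eq _ _ _))
    refine Finset.disjoint_left.2 fun c h3 h4 => ?_
    obtain ⟨a', h5, h6⟩ := Finset.mem_biUnion.1 (sub a h3)
    obtain ⟨b', h7, h8⟩ := Finset.mem_biUnion.1 (sub b h4)
    refine Finset.disjoint_left.1 (h1 a' (ih.2.img_subset ha h5) b' (ih.2.img_subset hb h7) ?_) h6 h8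
    rintro rfl
    exact Finset.disjoint_left.1 (ih.2 a ha b hb hab) h5 h7

lemma Hom.TT.noCancel_img (H : f.TT) (n m : ℕ) (c : T.E) :
    (f.itn m).NoCancel (f.itn n (c.ed false)) (f.itn n (c.ed true)) :=
  (H.iter ((f.itn n).lev_eq (lev_ed_eq _ _ _))
    (H.iter (lev_ed_eq _ _ _) (legal_ed f c false) n).1 m).2

lemma Hom.TT.img_add (H : f.TT) (n m : ℕ) (c : T.E) :
    (f.itn (n + m)).img c = ((f.itn n).img c).biUnion (f.itn m).img := by
  rw [img, iter_add, iter_add]
  exact (H.noCancel_img n m c).sep_eq ((f.itn n).lev_eq (lev_ed_eq _ _ _))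

lemma Hom.TT.mem_add (H : f.TT) {n m : ℕ} {c c' c'' : T.E} (h : c' ∈ (f.itn n).img c)
    (h' : c'' ∈ (f.itn m).img c') : c'' ∈ (f.itn (n + m)).img c := by
  rw [H.img_add]; exact Finset.mem_biUnion.2 ⟨c', h, h'⟩

lemma Hom.TT.card_add (H : f.TT) (n m : ℕ) (c : T.E) :
    ((f.itn (n + m)).img c).card = ∑ a ∈ (f.itn n).img c, ((f.itn m).img a).card := by
  rw [H.img_add]; exact Finset.card_biUnion (H.noCancel_img n m c)

lemma Hom.TT.nonempty_iter (H : f.TT) (n : ℕ) (c : T.E) : ((f.itn n).img c).Nonempty := by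
  induction n with
  | zero => simp [img_iter_zero]
  | succ n ih =>
    obtain ⟨a, ha⟩ := ih
    obtain ⟨b, hb⟩ := nondeg_iff.1 H.1 a
    exact ⟨b, H.mem_add ha hb⟩

lemma Hom.TT.nondeg_iter (H : f.TT) (n : ℕ) : (f.itn n).Nondeg :=
  nondeg_iff.2 (H.nonempty_iter n)

lemma Hom.TT.card_mono (H : f.TT) (c : T.E) {n m : ℕ} (h : n ≤ m) :
    ((f.itn n).img c).card ≤ ((f.itn m).img c).card := by
  obtain ⟨m, rfl⟩ := Nat.exists_eq_add_of_le h
  rw [H.card_add, Finset.card_eq_sum_ones]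
  exact Finset.sum_le_sum fun a _ => (H.nonempty_iter m a).card_pos

/-- Edges of type `j` occur in the `n`-th image of the edges of type `i`. -/
def Rn (f : Hom T T k) (n : ℕ) (i j : T.I) : Prop := 0 < (f.itn n).mat j i

lemma Rn.ex {n : ℕ} {j : T.I} (c : T.E) (h : Rn f n c.i j) : ∃ c' ∈ (f.itn n).img c, c'.i = j :=
  (f.itn n).exists_of_mat_pos c h

lemma Hom.TT.rn_add (H : f.TT) {n m : ℕ} {i j l : T.I} (h : Rn f n i j) (h' : Rn f m j l) :
    Rn f (n + m) i l := by
  obtain ⟨a, h1, rfl⟩ := Rn.ex ⟨1, i⟩ h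
  obtain ⟨b, h2, rfl⟩ := Rn.ex a h'
  exact (f.itn (n + m)).mat_pos (H.mem_add h1 h2)

lemma rn_zero (i : T.I) : Rn f 0 i i :=
  (f.itn 0).mat_pos (c := ⟨1, i⟩) (c' := ⟨1, i⟩) (by simp [img_iter_zero])

lemma Hom.TT.rn_of_trans (H : f.TT) {p : ℕ} {i j : T.I} (h : Relation.TransGen (Rn f p) i j) :
    ∃ a, 0 < a ∧ Rn f (p * a) i j := by
  induction h with
  | single h => exact ⟨1, one_pos, by rwa [mul_one]⟩
  | tail _ h ih =>
    obtain ⟨a, h0, h1⟩ := ih
    exact ⟨a + 1, a.succ_pos, by rw [mul_add, mul_one]; exact H.rn_add h1 h⟩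

lemma Hom.TT.rn_of_irr (H : f.TT) (hI : Irr f.mat) (i j : T.I) : ∃ a, 0 < a ∧ Rn f a i j := by
  simpa using H.rn_of_trans (p := 1) (hI i j)

/-- Lengths of iterated images are unbounded. -/
lemma Hom.TT.grow (H : f.TT) (hI : Irr f.mat) {z : T.E} (hz : Long f z) (B : ℕ) (c : T.E) :
    ∃ n, B ≤ ((f.itn n).img c).card := by
  induction B with
  | zero => exact ⟨0, Nat.zero_le _⟩
  | succ B ih =>
    obtain ⟨n, hn⟩ := ih
    obtain ⟨a, ha⟩ := H.nonempty_iter n c
    obtain ⟨m, -, hm⟩ := H.rn_of_irr hI a.i z.i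
    obtain ⟨b, h1, h2⟩ := hm.ex a
    refine ⟨n + m + 1, Nat.succ_le_of_lt ((hn.trans (H.card_mono c (Nat.le_add_right n m))).trans_lt ?_)⟩
    rw [H.card_add (n + m) 1, Finset.card_eq_sum_ones]
    exact Finset.sum_lt_sum (fun a _ => (H.nonempty_iter 1 a).card_pos)
      ⟨b, H.mem_add ha h1, hz.of_i h2.symm⟩

lemma Hom.TT.grow_all (H : f.TT) (hI : Irr f.mat) {z : T.E} (hz : Long f z) (B : ℕ) :
    ∃ n0, ∀ n ≥ n0, ∀ c : T.E, B ≤ ((f.itn n).img c).card := by
  choose φ hφ using fun i : T.I => H.grow hI hz B ⟨1, i⟩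
  refine ⟨Finset.univ.sup φ, fun n hn c => ?_⟩
  rw [eq_smul_of_i (c := ⟨1, c.i⟩) (c' := c) rfl, img_smul,
    Finset.card_image_of_injective _ (MulAction.injective _)]
  exact (hφ c.i).trans (H.card_mono _ ((Finset.le_sup (Finset.mem_univ _)).trans hn))

/-- Level preserving self maps move vertices a bounded distance. -/
lemma Ess.bounded (hE : T.Ess) (h : Hom T T 0) : ∃ B, ∀ x, (sep x (h x)).card ≤ B := by
  refine ⟨Finset.univ.sup fun p : T.I × Bool => (sep (T.en p.1 p.2) (h (T.en p.1 p.2))).card,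
    fun x => ?_⟩
  obtain ⟨d, rfl⟩ := hE.exists_dir x
  rw [Dir.src, E.ed, h.map_smul, sep_smul, Finset.card_image_of_injective _ (MulAction.injective _)]
  exact Finset.le_sup (f := fun p : T.I × Bool => (sep (T.en p.1 p.2) (h (T.en p.1 p.2))).card)
    (Finset.mem_univ (d.1.i, d.2))

/-- Maximality of the elliptic family among forests with a flow of any nonzero shift. -/
def HMax (T : Forest deg) : Prop := ∀ (Z : Forest deg) (r : ℤ), Z.Ess → r ≠ 0 →
  Nonempty (Hom Z Z r) → Nonempty (Hom T Z 0) → Nonempty (Hom Z T 0)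

/-- All powers are irreducible. -/
lemma Hom.TT.irr_pow (H : f.TT) (hI : Irr f.mat) {z : T.E} (hz : Long f z) (hk : k ≠ 0)
    (hE : T.Ess) (hL : T.Leafless) (hM : HMax T) {p : ℕ} (hp : 0 < p) (i j : T.I) :
    Relation.TransGen (Rn f p) i j := by
  by_contra hij
  set Z : T.I → Prop := fun l => Relation.TransGen (Rn f p) i l
  have inv : ∀ c : T.E, Z c.i → ∀ n, ∀ c' ∈ (f.itn (p * n)).img c, Z c'.i := fun c hc n => by
    induction n with
    | zero => intro c' h; rw [mul_zero, img_iter_zero, Finset.mem_singleton] at h; rwa [h]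
    | succ n ih =>
      intro c' h
      rw [mul_add, mul_one, H.img_add] at h
      obtain ⟨a, h1, h2⟩ := Finset.mem_biUnion.1 h
      exact (ih a h1).tail ((f.itn p).mat_pos h2)
  have col : ∀ c : T.E, Z c.i → ∀ n,
      cq Z (f.itn (p * n) (c.ed false)) = cq Z (f.itn (p * n) (c.ed true)) := fun c hc n =>
    (cq_eq Z).2 ⟨(f.itn _).lev_eq (lev_ed_eq _ _ _), inv c hc n⟩
  obtain ⟨s⟩ := hM (coll Z) ((p * 1 : ℕ) * k) (hE.coll Z hL hij)
    (mul_ne_zero (by simpa using hp.ne') hk)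
    ⟨desc Z ((cq Z).comp (f.itn (p * 1)) (add_zero _).symm) fun c hc => col c hc 1⟩ ⟨cq Z⟩
  obtain ⟨B, hB⟩ := hE.bounded (s.comp (cq Z) rfl)
  obtain ⟨c, hc⟩ := H.nonempty_iter p ⟨1, i⟩
  obtain ⟨n, hn⟩ := H.grow hI hz (2 * B + 1) c
  have h1 := hn.trans (H.card_mono c (Nat.le_mul_of_pos_left n hp))
  have h2 := col c (.single ((f.itn p).mat_pos hc)) n
  have h3 := hB (f.itn (p * n) (c.ed false))
  have h4 := hB (f.itn (p * n) (c.ed true))
  rw [comp_apply] at h3 h4
  rw [← h2, sep_comm] at h4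
  have l : ∀ x, T.lev x = T.lev (s (cq Z x)) := fun x => by rw [s.lev_map, (cq Z).lev_map]; simp
  have h5 := (Finset.card_le_card (sep_subset_union (l (f.itn (p * n) (c.ed false)))
    (by rw [h2]; exact (l _).symm) (w := f.itn (p * n) (c.ed true)))).trans (Finset.card_union_le _ _)
  rw [img] at h1
  omega

/-- Primitivity. -/
lemma Hom.TT.prim (H : f.TT) (hI : Irr f.mat) {z : T.E} (hz : Long f z) (hk : k ≠ 0)
    (hE : T.Ess) (hL : T.Leafless) (hM : HMax T) : ∃ N, ∀ i j, Rn f N i j := by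
  obtain ⟨p, hp, h0⟩ := H.rn_of_irr hI z.i z.i
  have stay : ∀ a, Rn f (p * a) z.i z.i := fun a => by
    induction a with
    | zero => exact rn_zero _
    | succ a ih => rw [mul_add, mul_one]; exact H.rn_add ih h0
  choose α _ hα using fun i => H.rn_of_trans (H.irr_pow hI hz hk hE hL hM hp i z.i)
  choose β _ hβ using fun j => H.rn_of_trans (H.irr_pow hI hz hk hE hL hM hp z.i j)
  refine ⟨p * (Finset.univ.sup α + Finset.univ.sup β), fun i j => ?_⟩
  obtain ⟨a, ha⟩ := Nat.exists_eq_add_of_le (Finset.le_sup (f := α) (Finset.mem_univ i))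
  obtain ⟨b, hb⟩ := Nat.exists_eq_add_of_le (Finset.le_sup (f := β) (Finset.mem_univ j))
  have := H.rn_add (H.rn_add (hα i) (stay (a + b))) (hβ j)
  rwa [ha, hb, show p * (α i + a + (β j + b)) = p * α i + p * (a + b) + p * β j by ring]

/-- The edge `c` lies in the interior of the geodesic from `u` to `v`. -/
def Inner (u v : T.V) (c : T.E) : Prop := c ∈ sep u v ∧ ∀ b, c.ed b ≠ u ∧ c.ed b ≠ v

lemma exists_two_inner {u v : T.V} (h : 4 ≤ (sep u v).card) :
    ∃ a b, a ≠ b ∧ Inner u v a ∧ Inner u v b := by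
  have hl : T.lev u = T.lev v := by
    obtain ⟨c, hc⟩ := Finset.card_pos.1 (lt_of_lt_of_le (by norm_num) h)
    exact lev_eq_of_mem hc
  have hne : u ≠ v := by rintro rfl; simp at h
  obtain ⟨d, hd⟩ := exists_First hl hne
  obtain ⟨d', hd'⟩ := exists_First hl.symm hne.symm
  have : 1 < (((sep u v).erase d.1).erase d'.1).card := by
    have h1 := Finset.pred_card_le_card_erase (s := sep u v) (a := d.1)
    have h2 := Finset.pred_card_le_card_erase (s := (sep u v).erase d.1) (a := d'.1)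
    omega
  obtain ⟨a, ha, b, hb, hab⟩ := Finset.one_lt_card.1 this
  have key : ∀ a ∈ ((sep u v).erase d.1).erase d'.1, Inner u v a := fun a ha => by
    simp only [Finset.mem_erase] at ha
    exact ⟨ha.2.2, fun b => ⟨fun e => ha.2.1 (congrArg Prod.fst (First.unique (d := (a, b))
      ⟨e, ha.2.2⟩ hd)), fun e => ha.1 (congrArg Prod.fst (First.unique (d := (a, b))
      ⟨e, by rw [sep_comm]; exact ha.2.2⟩ hd'))⟩⟩
  exact ⟨a, b, hab, key a ha, key b hb⟩

lemma Inner.img {T' : Forest deg} {h : Hom T T' k} (hn : h.Nondeg) {u v : T.V}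
    (H : h.NoCancel u v) {a : T.E} (ha : Inner u v a) {c : T'.E} (hc : c ∈ h.img a) :
    Inner (h u) (h v) c := by
  have key : ∀ u v, h.NoCancel u v → a ∈ sep u v → (∀ b, a.ed b ≠ u) → ∀ b, c.ed b ≠ h u := by
    intro u v H h1 h2 b e
    obtain ⟨d, hd⟩ := exists_First (lev_eq_of_mem h1) (by rintro rfl; simp at h1)
    obtain ⟨d', hd'⟩ := hn.exists_D d
    have := (H.first hd hd').unique (d' := (c, b)) ⟨e, H.img_subset h1 hc⟩
    refine Finset.disjoint_left.1 (H d.1 hd.2 a h1 ?_) hd'.mem (by rw [this]; exact hc)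
    rintro rfl
    exact h2 _ hd.1
  exact ⟨H.img_subset ha.1 hc, fun b => ⟨key u v H ha.1 (fun b => (ha.2 b).1) b,
    key v u H.symm (by rw [sep_comm]; exact ha.1) (fun b => (ha.2 b).2) b⟩⟩

/-- High iterates contain two interior translates of every edge. -/
lemma Hom.TT.two_inner (H : f.TT) (hI : Irr f.mat) {z : T.E} (hz : Long f z) (hk : k ≠ 0)
    (hE : T.Ess) (hL : T.Leafless) (hM : HMax T) : ∃ N0, ∀ N ≥ N0, ∀ (c : T.E) (i : T.I),
      ∃ a b : T.E, a ≠ b ∧ a.i = i ∧ b.i = i ∧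
        Inner (f.itn N (c.ed false)) (f.itn N (c.ed true)) a ∧
        Inner (f.itn N (c.ed false)) (f.itn N (c.ed true)) b := by
  obtain ⟨m, hm⟩ := H.prim hI hz hk hE hL hM
  obtain ⟨n0, h0⟩ := H.grow_all hI hz 4
  refine ⟨n0 + m, fun N hN c i => ?_⟩
  obtain ⟨n, rfl⟩ : ∃ n, N = n + m := ⟨N - m, by omega⟩
  obtain ⟨a, b, hab, ha, hb⟩ := exists_two_inner (h0 n (by omega) c)
  obtain ⟨a', h1, h2⟩ := (hm a.i i).ex a
  obtain ⟨b', h3, h4⟩ := (hm b.i i).ex b
  have nc := H.noCancel_img n m c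
  refine ⟨a', b', ?_, h2, h4, ?_, ?_⟩
  · rintro rfl
    exact Finset.disjoint_left.1 (nc a ha.1 b hb.1 hab) h1 h3
  · rw [iter_add, iter_add]; exact ha.img (H.nondeg_iter m) nc h1
  · rw [iter_add, iter_add]; exact hb.img (H.nondeg_iter m) nc h3

lemma btw_iff_sep {a x b : T.V} :
    T.btw a x b ↔ T.lev a = T.lev x ∧ T.lev x = T.lev b ∧ sep a x ⊆ sep a b :=
  and_congr_right fun h => and_congr_right fun h' =>
    ⟨fun H c hc => (mem_sep (h.trans h')).2 fun e => sd_ne_of_mem hc (H c e).symm,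
      fun H c e => by_contra fun e' => sd_ne_of_mem (H ((mem_sep h).2 (Ne.symm e'))) e⟩

lemma btw.sep_subset {a b x y : T.V} (hx : T.btw a x b) (hy : T.btw a y b) : sep x y ⊆ sep a b := by
  refine (sep_subset_union hx.1.symm hy.1).trans (Finset.union_subset ?_ (btw_iff_sep.1 hy).2.2)
  rw [sep_comm]; exact (btw_iff_sep.1 hx).2.2

lemma Hom.NoCancel.btw {T' : Forest deg} {h : Hom T T' k} {x y z : T.V} (H : h.NoCancel x z)
    (e : T.btw x y z) : T'.btw (h x) (h y) (h z) :=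
  btw_iff_sep.2 ⟨h.lev_eq e.1, h.lev_eq e.2.1, (h.sep_subset e.1).trans (by
    rw [H.sep_eq (e.1.trans e.2.1)]
    exact Finset.biUnion_subset_biUnion_of_subset_left _ (btw_iff_sep.1 e).2.2)⟩

/-- Legal geodesics keep their order for ever. -/
lemma Hom.TT.btw_iter (H : f.TT) {a b x y z : T.V} (h : f.Legal a b) (hx : T.btw a x b)
    (hz : T.btw a z b) (e : T.btw x y z) (n : ℕ) :
    T.btw (f.itn n x) (f.itn n y) (f.itn n z) :=
  (H.iter (e.1.trans e.2.1) (h.mono (hx.sep_subset hz)) n).2.btw e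

end Pool.Agent.Lib.FBC.Forest
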