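import Pool.Agent.Lib.FBC.X1.Perm
import Pool.Agent.Lib.FBC.Blue0

set_option autoImplicit false
set_option linter.unusedVariables false

/-!
Primitive train tracks in both directions, or an invariant one-edge splitting.
-/

namespace Pool.Agent.Lib.FBC

open Forest Hom

/-- A maximal virtually invariant splitting exists. -/
def St_MAXE' : Prop := ∀ (G : Type) [Group G] (d : Dg G), FC d → d.ker ≠ ⊥ →
  ∃ (k : ℕ) (H : Subgroup G) (e : Dg H), Pow d k H e ∧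
    ∃ (T : Forest e) (f : Hom T T 1), T.Ess ∧ MAX e T.Ell

/-- Maximality in terms of equivariant maps. -/
def St_MAXH' : Prop := ∀ (G : Type) [Group G] (d : Dg G) (Y : Forest d), FC d → MAX d Y.Ell →
  (∀ n, Nonempty (Hom Y Y n)) → Y.Ess → HMax Y

/-- The rank hypothesis. -/
def St_RK' : Prop := ∀ (G : Type) [Group G] (d : Dg G), FC d → ∃ n, Rank d n

variable {G H : Type} [Group G] [Group H] {d : Dg G} {e : Dg H} {j : H →* G} {N : ℕ}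

lemma Flow.pow_TT {Y : Forest d} (s : Flow Y) (h : GPow d N j e) (hN : 0 < N) (hn : Nonempty Y.I)
    (leg : ∀ (a : Y.Dir) x y z, Y.btw (s.σ^[N] a.src) x (s.σ^[N] a.tgt) →
      Y.btw (s.σ^[N] a.src) z (s.σ^[N] a.tgt) → Y.btw x y z →
      ∀ n, Y.btw (s.σ^[n] x) (s.σ^[n] y) (s.σ^[n] z))
    (inn : ∀ (a : Y.Dir) (i : Y.I), ∃ b c : Y.E, b ≠ c ∧ b.i = i ∧ c.i = i ∧
      Inner (s.σ^[N] a.src) (s.σ^[N] a.tgt) b ∧ Inner (s.σ^[N] a.src) (s.σ^[N] a.tgt) c) :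
    (s.pow h hN).TT where
  ne := hn
  legal a := ⟨(s.pow h hN).f.lev_eq (lev_src_tgt a), fun x y z h1 _ h3 h4 =>
    Flow.Legal.pow (leg a.up _ _ _ (btw_pow.1 h1) (btw_pow.1 h3) (btw_pow.1 h4))⟩
  prim a i := by
    have key : ∀ b : Y.E, Inner (s.σ^[N] a.up.src) (s.σ^[N] a.up.tgt) b →
        ∃ b' : (Y.pow h).Dir, b'.1.up = b ∧ (s.pow h hN).IDesc 1 a b' := fun b hb => by
      obtain ⟨b', rfl⟩ := exists_up_of_mem (u := (s.pow h hN).σ a.src) hb.1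
      refine ⟨(b', b'.up.sd (s.σ^[N] a.up.src)), rfl, Flow.idesc_pow.2 ?_⟩
      rw [mul_one]
      exact ⟨cross_of_mem hb.1, (hb.2 _).1, (hb.2 _).2⟩
    obtain ⟨b, c, h1, h2, h3, h4, h5⟩ := inn a.up i
    obtain ⟨b', rfl, h6⟩ := key b h4
    obtain ⟨c', rfl, h7⟩ := key c h5
    exact ⟨b', c', fun e => h1 (congrArg E.up e), h2, h3, h6, h7⟩

lemma inner_dir {T : Forest d} {k : ℤ} {f : Hom T T k}
    (h : ∀ (c : T.E) (i : T.I), ∃ a b : T.E, a ≠ b ∧ a.i = i ∧ b.i = i ∧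
      Inner (f.itn N (c.ed false)) (f.itn N (c.ed true)) a ∧
      Inner (f.itn N (c.ed false)) (f.itn N (c.ed true)) b) (a : T.Dir) (i : T.I) :
    ∃ b c : T.E, b ≠ c ∧ b.i = i ∧ c.i = i ∧ Inner (f.itn N a.src) (f.itn N a.tgt) b ∧
      Inner (f.itn N a.src) (f.itn N a.tgt) c := by
  obtain ⟨c, β⟩ := a
  cases β
  · exact h c i
  · obtain ⟨a, b, h1, h2, h3, h4, h5⟩ := h c i
    exact ⟨a, b, h1, h2, h3, ⟨by rw [sep_comm]; exact h4.1, fun β => (h4.2 β).symm⟩,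
      ⟨by rw [sep_comm]; exact h5.1, fun β => (h5.2 β).symm⟩⟩

lemma legal_dir {T : Forest d} {k : ℤ} {f : Hom T T k} (hT : f.TT) (a : T.Dir) :
    f.Legal (f.itn N a.src) (f.itn N a.tgt) :=
  (hT.iter (lev_src_tgt a) (legal_ed f a.1 a.2) N).1

theorem TT_of (h1 : St_MAXE') (h2 : St_MAXH') (h3 : St_RK') : St_TT := by
  intro G _ d hF hne
  obtain ⟨k, H, e, hP, T, f, hE, hM⟩ := h1 G d hF hne
  have hF' : FC e := hF.pow hP.gpow hP.pos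
  obtain ⟨n, hR⟩ := h3 _ e hF'
  obtain ⟨xi, -, hxi⟩ := acc_thm _ e n hR hF'.surj
  obtain ⟨g⟩ := (hxi T T 1 f hE hE).2 le_rfl
  have hT := h2 _ e T hF' hM (hom_all f g) hE
  obtain ⟨Tp, Tm, fp, fm, ⟨p⟩, ⟨b⟩, ⟨a⟩, hEp, hLp, -, hIp, hTp, hEm, hLm, -, hIm, hTm, -⟩ :=
    t0_thm _ e n T f hR hF'.surj hE
  obtain ⟨q⟩ := hT Tp 1 hEp one_ne_zero ⟨fp⟩ ⟨p⟩
  have hMp : HMax Tp := fun Z r z1 z2 z3 ⟨z4⟩ =>
    let ⟨x⟩ := hT Z r z1 z2 z3 ⟨z4.comp p rfl⟩; ⟨p.comp x rfl⟩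
  have hMm : HMax Tm := fun Z r z1 z2 z3 ⟨z4⟩ =>
    let ⟨x⟩ := hMp Z r z1 z2 z3 ⟨z4.comp b rfl⟩; ⟨b.comp x rfl⟩
  have deep : ∀ m, 0 < m → ∃ (S : Subgroup G) (c : Dg S) (r : S →* H),
      Pow d (k * m) S c ∧ GPow e m r c := fun m hm => by
    obtain ⟨S, c, hS⟩ := exists_pow d (Nat.mul_pos hP.pos hm)
    obtain ⟨r, -, hr⟩ := hP.gpow.factor hP.pos hS.gpow
    exact ⟨S, c, r, hS, hr⟩
  by_cases l1 : ∀ c, ¬ Long fp c
  · obtain ⟨m, hm, h⟩ := perm_dtree (Or.inl rfl) hTp hIp hEp hLp l1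
    obtain ⟨S, c, r, hS, hr⟩ := deep m hm
    exact ⟨_, S, c, hS, Or.inl (h S r c hr)⟩
  by_cases l2 : ∀ c, ¬ Long fm c
  · obtain ⟨m, hm, h⟩ := perm_dtree (Or.inr rfl) hTm hIm hEm hLm l2
    obtain ⟨S, c, r, hS, hr⟩ := deep m hm
    exact ⟨_, S, c, hS, Or.inl (h S r c hr)⟩
  push Not at l1 l2
  obtain ⟨z1, l1⟩ := l1
  obtain ⟨z2, l2⟩ := l2
  obtain ⟨N1, i1⟩ := hTp.two_inner hIp l1 one_ne_zero hEp hLp hMp
  obtain ⟨N2, i2⟩ := hTm.two_inner hIm l2 (by norm_num) hEm hLm hMm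
  obtain ⟨S, c, r, hS, hr⟩ := deep (N1 + N2 + 1) (Nat.succ_pos _)
  let X : Pair e e⁻¹ := Pair.ofHom (fun _ => rfl) fp ((hxi Tp Tp 1 fp hEp hEp).2 le_rfl) fm
    (by simpa using (hxi Tm Tm (-1) fm hEm hEm).2 le_rfl) a b
  refine ⟨_, S, c, hS, Or.inr ⟨X.pow hr (Nat.succ_pos _), ?_, ?_, X.max_pow ?_ _ _⟩⟩
  · exact X.s.pow_TT hr (Nat.succ_pos _) hEp.nonempty_I
      (fun a x y z k1 k2 k3 n => hTp.btw_iter (legal_dir (N := N1 + N2 + 1) hTp a) k1 k2 k3 n)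
      (inner_dir (i1 (N1 + N2 + 1) (by omega)))
  · have hd : ∀ g, dg e⁻¹ g = - dg e g := fun _ => rfl
    refine X.t.pow_TT (hr.neg X.neg) (Nat.succ_pos _) hEm.nonempty_I
      (fun a x y z k1 k2 k3 n => (btw_flip (Y := Tm) (hd := hd)).2 (hTm.btw_iter
        (legal_dir (N := N1 + N2 + 1) hTm (flipD (hd := hd) a))
        ((btw_flip (Y := Tm) (hd := hd)).1 k1) ((btw_flip (Y := Tm) (hd := hd)).1 k2)
        ((btw_flip (Y := Tm) (hd := hd)).1 k3) n)) fun a i => ?_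
    obtain ⟨b, c, k1, k2, k3, k4, k5⟩ :=
      inner_dir (i2 (N1 + N2 + 1) (by omega)) (flipD (hd := hd) a) i
    exact ⟨(flipE (hd := hd)).symm b, (flipE (hd := hd)).symm c,
      fun e => k1 ((flipE (hd := hd)).symm.injective e), k2, k3,
      ⟨(flipE_mem_sep (hd := hd)).1 k4.1, k4.2⟩, ⟨(flipE_mem_sep (hd := hd)).1 k5.1, k5.2⟩⟩
  · have : Tp.Ell = T.Ell := q.ell_subset.antisymm p.ell_subset
    exact this ▸ hM

end Pool.Agent.Lib.FBC
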